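import Mathlib

set_option autoImplicit false

/-!
# Breadth first search trees and mixed resolving sets: basic lemmas
-/

namespace Pool.Agent.TH452.Mix

open SimpleGraph

variable {V : Type*} {G : SimpleGraph V} {r : V} {par : V → V}

/-- `par` is the parent function of a breadth first search tree of `G` with root `r`. -/
structure BT (G : SimpleGraph V) (r : V) (par : V → V) : Prop where
  conn : G.Connected
  par_r : par r = r
  par_adj : ∀ v, v ≠ r → G.Adj v (par v)
  par_lev : ∀ v, v ≠ r → G.dist r (par v) + 1 = G.dist r v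

/-- cotree adjacency -/
def Co (G : SimpleGraph V) (par : V → V) (u v : V) : Prop :=
  G.Adj u v ∧ par u ≠ v ∧ par v ≠ u

/-- end of a cotree edge -/
def Sp (G : SimpleGraph V) (par : V → V) (v : V) : Prop := ∃ w, Co G par v w

/-- tree ancestor -/
def Anc (par : V → V) (v s : V) : Prop := ∃ i : ℕ, par^[i] s = v

/-- metric ancestor -/
def MA (G : SimpleGraph V) (r u s : V) : Prop := G.dist u s + G.dist r u = G.dist r s

lemma Co.symm {u v : V} (h : Co G par u v) : Co G par v u := ⟨h.1.symm, h.2.2, h.2.1⟩

lemma exists_closer (hc : G.Connected) {u v : V} (h : u ≠ v) :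
    ∃ w, G.Adj v w ∧ G.dist u w + 1 = G.dist u v := by
  obtain ⟨p, hp⟩ := hc.exists_walk_length_eq_dist v u
  cases p with
  | nil => exact absurd rfl h
  | @cons _ w _ hadj q =>
    refine ⟨w, hadj, ?_⟩
    have h1 : G.dist w u ≤ q.length := dist_le q
    have h2 : q.length + 1 = G.dist v u := by simpa using hp
    have h3 : G.dist v u ≤ G.dist v w + G.dist w u := hc.dist_triangle
    have h4 : G.dist v w = 1 := dist_eq_one_iff_adj.2 hadj
    rw [dist_comm (u := u) (v := w), dist_comm (u := u) (v := v)]
    omega

lemma dist_adj_le (hc : G.Connected) {u v w : V} (h : G.Adj v w) :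
    G.dist u w ≤ G.dist u v + 1 := by
  have h3 : G.dist u w ≤ G.dist u v + G.dist v w := hc.dist_triangle
  have h4 : G.dist v w = 1 := dist_eq_one_iff_adj.2 h
  omega

namespace BT

variable (B : BT G r par)
include B

lemma lev_par (v : V) : G.dist r (par v) = G.dist r v - 1 := by
  by_cases h : v = r
  · subst h; rw [B.par_r]; simp
  · have := B.par_lev v h; omega

lemma lev_iter (i : ℕ) (v : V) : G.dist r (par^[i] v) = G.dist r v - i := by
  induction i generalizing v with
  | zero => simp
  | succ i ih => rw [Function.iterate_succ_apply, ih, B.lev_par]; omega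

lemma lev_eq_zero {v : V} : G.dist r v = 0 ↔ v = r := by
  rw [B.conn.dist_eq_zero_iff]; exact eq_comm

lemma anc_MA {v s : V} (h : Anc par v s) : MA G r v s := by
  obtain ⟨i, hi⟩ := h
  induction i generalizing s with
  | zero => simp at hi; subst hi; simp [MA]
  | succ i ih =>
    rw [Function.iterate_succ_apply] at hi
    have h1 := ih hi
    by_cases hs : s = r
    · subst hs; rw [B.par_r] at h1; exact h1
    · have h2 := B.par_lev s hs
      have h3 := B.par_adj s hs
      unfold MA at *
      have h4 := dist_adj_le B.conn (u := v) h3.symm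
      have h5 : G.dist r s ≤ G.dist r v + G.dist v s := B.conn.dist_triangle
      omega

lemma MA_le {u s : V} : G.dist r s ≤ G.dist u s + G.dist r u := by
  have h5 : G.dist r s ≤ G.dist r u + G.dist u s := B.conn.dist_triangle
  omega

lemma anc_unique {u v s : V} (hu : Anc par u s) (hv : Anc par v s)
    (h : G.dist r u = G.dist r v) : u = v := by
  obtain ⟨i, hi⟩ := hu
  obtain ⟨j, hj⟩ := hv
  have h1 := B.lev_iter i s
  have h2 := B.lev_iter j s
  rw [hi] at h1
  rw [hj] at h2
  by_cases h0 : G.dist r u = 0
  · have h0' : G.dist r v = 0 := by omega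
    rw [B.lev_eq_zero.1 h0, B.lev_eq_zero.1 h0']
  · have : i = j := by omega
    rw [← hi, ← hj, this]

lemma MA_step {u x : V} (h : MA G r u x) (hne : u ≠ x) :
    ∃ y, G.Adj x y ∧ MA G r u y ∧ G.dist r y + 1 = G.dist r x := by
  obtain ⟨y, hy, hd⟩ := exists_closer B.conn hne
  have h1 := dist_adj_le B.conn (u := r) hy.symm
  have h2 := B.MA_le (u := u) (s := y)
  unfold MA at *
  refine ⟨y, hy, ?_, ?_⟩ <;> omega

lemma tree_or_co {x y : V} (h : G.Adj x y) (hl : G.dist r y + 1 = G.dist r x) :
    par x = y ∨ Co G par x y := by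
  by_cases h1 : par x = y
  · exact Or.inl h1
  · refine Or.inr ⟨h, h1, ?_⟩
    intro h2
    have := B.lev_par y
    rw [h2] at this
    omega

lemma not_co_root {v : V} : ¬ Co G par r v := by
  rintro ⟨h, h1, h2⟩
  have h3 : G.dist r v = 1 := dist_eq_one_iff_adj.2 h
  have h4 : v ≠ r := h.ne'
  have h5 := B.par_lev v h4
  exact h2 (B.lev_eq_zero.1 (by omega))

lemma anc_lev_le {v s : V} (h : Anc par v s) : G.dist r v ≤ G.dist r s := by
  have := B.anc_MA h; unfold MA at this; omega

/-- every vertex has a descendant which is an end of a cotree edge -/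
lemma exists_sp [Fintype V] (hdeg : ∀ v x, ∃ y, G.Adj v y ∧ y ≠ x) (v : V) :
    ∃ s, Anc par v s ∧ Sp G par s := by
  classical
  obtain ⟨s, hs, hmax⟩ := (Finset.univ.filter (fun s => Anc par v s)).exists_max_image
    (fun s => G.dist r s) ⟨v, by simp; exact ⟨0, rfl⟩⟩
  simp only [Finset.mem_filter, Finset.mem_univ, true_and] at hs hmax
  refine ⟨s, hs, ?_⟩
  have hchild : ∀ w, w ≠ r → par w ≠ s := by
    intro w hw h
    have h1 : Anc par v w := by
      obtain ⟨i, hi⟩ := hs
      exact ⟨i + 1, by rw [Function.iterate_succ_apply, h, hi]⟩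
    have h2 := hmax w h1
    have h3 := B.par_lev w hw
    rw [h] at h3
    omega
  obtain ⟨y, hy, hne⟩ := hdeg s (par s)
  refine ⟨y, hy, fun h => hne h.symm, ?_⟩
  intro h
  by_cases hyr : y = r
  · subst hyr
    rw [B.par_r] at h
    exact hy.ne h.symm
  · exact hchild y hyr h

/-- climbing along a geodesic from `u` -/
lemma climb {u v x : V} (hne : u ≠ v) (hl : G.dist r u = G.dist r v)
    (hx : Anc par v x) (hu : MA G r u x) :
    ∃ z y, Anc par v z ∧ MA G r z x ∧ Co G par z y ∧ MA G r u y ∧
      G.dist r y + 1 = G.dist r z := by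
  induction hn : G.dist r x using Nat.strong_induction_on generalizing x with
  | _ n ih =>
    have hux : u ≠ x := by
      rintro rfl
      have := B.anc_unique hx ⟨0, rfl⟩ hl.symm
      exact hne this.symm
    obtain ⟨y, hy, huy, hly⟩ := B.MA_step hu hux
    rcases B.tree_or_co hy hly with h | h
    · have hxv : x ≠ v := by
        rintro rfl
        unfold MA at hu
        have : G.dist u x = 0 := by omega
        exact hux ((B.conn.dist_eq_zero_iff).1 this)
      have hay : Anc par v y := by
        obtain ⟨i, hi⟩ := hx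
        cases i with
        | zero => exact absurd hi hxv
        | succ i => exact ⟨i, by rw [← h, ← Function.iterate_succ_apply, hi]⟩
      obtain ⟨z, w, h1, h2, h3, h4, h5⟩ := ih (G.dist r y) (by omega) hay huy rfl
      refine ⟨z, w, h1, ?_, h3, h4, h5⟩
      have h6 := B.MA_le (u := z) (s := x)
      have h7 := dist_adj_le B.conn (u := z) hy.symm
      unfold MA at *
      omega
    · exact ⟨x, y, hx, by simp [MA], h, huy, hly⟩

/-- if no end of a cotree edge below `v` has level `< L`, then metric descendants of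
`v` with level at most `L` are tree descendants -/
lemma descend {v : V} {L : ℕ} (hL : ∀ s, Anc par v s → Sp G par s → L ≤ G.dist r s)
    {w : V} (hw : MA G r v w) (hl : G.dist r w ≤ L) : Anc par v w := by
  induction hn : G.dist r w using Nat.strong_induction_on generalizing w with
  | _ n ih =>
    by_cases hvw : v = w
    · exact ⟨0, hvw.symm⟩
    · obtain ⟨y, hy, hvy, hly⟩ := B.MA_step hw hvw
      have hay := ih (G.dist r y) (by omega) hvy (by omega) rfl
      rcases B.tree_or_co hy hly with h | h
      · obtain ⟨i, hi⟩ := hay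
        exact ⟨i + 1, by rw [Function.iterate_succ_apply, h, hi]⟩
      · have := hL y hay ⟨w, h.symm⟩
        omega

/-- the key lemma -/
lemma key {u v s : V} (hne : u ≠ v) (hl : G.dist r u = G.dist r v)
    (hs : Anc par v s) (hsp : Sp G par s)
    (hmin : ∀ s', Anc par v s' → Sp G par s' → G.dist r s ≤ G.dist r s') :
    ¬ MA G r u s ∨ ∃ y, Co G par s y ∧ G.dist r y + 1 = G.dist r s ∧ MA G r u y ∧
      ¬ MA G r v y := by
  by_cases hus : MA G r u s
  · right
    obtain ⟨z, y, h1, h2, h3, h4, h5⟩ := B.climb hne hl hs hus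
    have h6 := hmin z h1 ⟨y, h3⟩
    have hzs : z = s := by
      unfold MA at h2
      exact B.conn.dist_eq_zero_iff.1 (by omega)
    subst hzs
    refine ⟨y, h3, h5, h4, ?_⟩
    intro h7
    have h8 := B.descend hmin h7 (by omega)
    have h9 := hmin y h8 ⟨z, h3.symm⟩
    omega
  · exact Or.inl hus

end BT

end Pool.Agent.TH452.Mix
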