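import Pool.Agent.TH452.MixA

set_option autoImplicit false

/-!
# Assembling mixed resolving sets
-/

namespace Pool.Agent.TH452.Mix

open SimpleGraph

variable {V : Type*} {G : SimpleGraph V} {r : V} {par : V → V}

/-- distance from `w` to the edge with ends `a`, `b` -/
noncomputable def dE2 (G : SimpleGraph V) (w a b : V) : ℕ := min (G.dist w a) (G.dist w b)

lemma dE2_comm (w a b : V) : dE2 G w a b = dE2 G w b a := min_comm _ _

/-- a statement that the set `S0` distinguishes all elements, in terms of pairs -/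
structure Res (G : SimpleGraph V) (S0 : Set V) : Prop where
  vv : ∀ u v, u ≠ v → ∃ s ∈ S0, G.dist s u ≠ G.dist s v
  ve : ∀ v a b, G.Adj a b → ∃ s ∈ S0, G.dist s v ≠ dE2 G s a b
  ee : ∀ a b c d, G.Adj a b → G.Adj c d → s(a, b) ≠ s(c, d) →
    ∃ s ∈ S0, dE2 G s a b ≠ dE2 G s c d

/-- the conditions checked in the proofs -/
structure Cond (G : SimpleGraph V) (r : V) (par : V → V) (S0 : Set V) : Prop where
  root : r ∈ S0
  c1 : ∀ u v, u ≠ v → G.dist r u = G.dist r v → ∃ s ∈ S0, G.dist s u ≠ G.dist s v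
  c1' : ∀ u v, u ≠ v → u ≠ r → v ≠ r → G.dist r u = G.dist r v →
    ∃ s ∈ S0, dE2 G s u (par u) ≠ dE2 G s v (par v)
  c2 : ∀ w v, w ≠ r → G.dist r v + 1 = G.dist r w →
    ∃ s ∈ S0, G.dist s v ≠ dE2 G s w (par w)
  c3v : ∀ a b v, Co G par a b → ∃ s ∈ S0, G.dist s v ≠ dE2 G s a b
  c3t : ∀ a b w, Co G par a b → w ≠ r → ∃ s ∈ S0, dE2 G s w (par w) ≠ dE2 G s a b
  c3c : ∀ a b c d, Co G par a b → Co G par c d → s(a, b) ≠ s(c, d) →
    ∃ s ∈ S0, dE2 G s a b ≠ dE2 G s c d

namespace BT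

variable (B : BT G r par)
include B

lemma edge_cases {a b : V} (h : G.Adj a b) :
    (a ≠ r ∧ par a = b) ∨ (b ≠ r ∧ par b = a) ∨ Co G par a b := by
  by_cases h1 : par a = b
  · left
    refine ⟨?_, h1⟩
    rintro rfl
    rw [B.par_r] at h1
    exact h.ne h1
  · by_cases h2 : par b = a
    · right; left
      refine ⟨?_, h2⟩
      rintro rfl
      rw [B.par_r] at h2
      exact h.ne h2.symm
    · exact Or.inr (Or.inr ⟨h, h1, h2⟩)

/-- assembling -/
lemma assemble {S0 : Set V} (C : Cond G r par S0) : Res G S0 := by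
  have hte : ∀ w, w ≠ r → dE2 G r w (par w) + 1 = G.dist r w := by
    intro w hw
    have := B.par_lev w hw
    unfold dE2; omega
  -- vertex / tree edge
  have hvt : ∀ v w, w ≠ r → ∃ s ∈ S0, G.dist s v ≠ dE2 G s w (par w) := by
    intro v w hw
    by_cases h : G.dist r v + 1 = G.dist r w
    · exact C.c2 w v hw h
    · refine ⟨r, C.root, ?_⟩
      have := hte w hw
      omega
  have htt : ∀ w w', w ≠ w' → w ≠ r → w' ≠ r →
      ∃ s ∈ S0, dE2 G s w (par w) ≠ dE2 G s w' (par w') := by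
    intro w w' hne hw hw'
    by_cases h : G.dist r w = G.dist r w'
    · exact C.c1' w w' hne hw hw' h
    · refine ⟨r, C.root, ?_⟩
      have := hte w hw
      have := hte w' hw'
      omega
  refine ⟨?_, ?_, ?_⟩
  · intro u v hne
    by_cases h : G.dist r u = G.dist r v
    · exact C.c1 u v hne h
    · exact ⟨r, C.root, h⟩
  · intro v a b hab
    rcases B.edge_cases hab with ⟨h1, h2⟩ | ⟨h1, h2⟩ | h
    · subst h2; exact hvt v a h1
    · subst h2
      obtain ⟨s, hs, hs'⟩ := hvt v b h1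
      exact ⟨s, hs, by rwa [dE2_comm]⟩
    · exact C.c3v a b v h
  · intro a b c d hab hcd hne
    rcases B.edge_cases hab with ⟨h1, h2⟩ | ⟨h1, h2⟩ | h
    · rcases B.edge_cases hcd with ⟨g1, g2⟩ | ⟨g1, g2⟩ | g
      · subst h2 g2
        exact htt a c (by rintro rfl; exact hne rfl) h1 g1
      · subst h2 g2
        obtain ⟨s, hs, hs'⟩ := htt a d (by rintro rfl; exact hne Sym2.eq_swap) h1 g1
        exact ⟨s, hs, by rwa [dE2_comm (a := par d)]⟩
      · subst h2
        exact C.c3t c d a g h1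
    · rcases B.edge_cases hcd with ⟨g1, g2⟩ | ⟨g1, g2⟩ | g
      · subst h2 g2
        obtain ⟨s, hs, hs'⟩ := htt b c (by rintro rfl; exact hne Sym2.eq_swap) h1 g1
        exact ⟨s, hs, by rwa [dE2_comm (a := par b)]⟩
      · subst h2 g2
        obtain ⟨s, hs, hs'⟩ := htt b d (by rintro rfl; exact hne rfl) h1 g1
        exact ⟨s, hs, by rwa [dE2_comm (a := par b), dE2_comm (a := par d)]⟩
      · subst h2
        obtain ⟨s, hs, hs'⟩ := C.c3t c d b g h1
        exact ⟨s, hs, by rwa [dE2_comm (a := par b)]⟩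
    · rcases B.edge_cases hcd with ⟨g1, g2⟩ | ⟨g1, g2⟩ | g
      · subst g2
        obtain ⟨s, hs, hs'⟩ := C.c3t a b c h g1
        exact ⟨s, hs, hs'.symm⟩
      · subst g2
        obtain ⟨s, hs, hs'⟩ := C.c3t a b d h g1
        exact ⟨s, hs, by rw [dE2_comm (a := par d)]; exact hs'.symm⟩
      · exact C.c3c a b c d h g hne

/-- `s` separates `u` and `v` by being a metric descendant of exactly one of them -/
lemma c1_of_sd {u v s : V} (hl : G.dist r u = G.dist r v)
    (h : (MA G r u s ∧ ¬ MA G r v s) ∨ (MA G r v s ∧ ¬ MA G r u s)) :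
    G.dist s u ≠ G.dist s v := by
  have h1 := B.MA_le (u := u) (s := s)
  have h2 := B.MA_le (u := v) (s := s)
  rw [dist_comm (u := s) (v := u), dist_comm (u := s) (v := v)]
  unfold MA at h
  omega

lemma c1'_of_sd {u v s : V} (hu : u ≠ r) (hv : v ≠ r) (hl : G.dist r u = G.dist r v)
    (h : (MA G r u s ∧ ¬ MA G r v s) ∨ (MA G r v s ∧ ¬ MA G r u s)) :
    dE2 G s u (par u) ≠ dE2 G s v (par v) := by
  have h1 := B.MA_le (u := u) (s := s)
  have h2 := B.MA_le (u := v) (s := s)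
  have h3 := B.MA_le (u := par u) (s := s)
  have h4 := B.MA_le (u := par v) (s := s)
  have h5 := B.par_lev u hu
  have h6 := B.par_lev v hv
  unfold dE2
  rw [dist_comm (u := s) (v := u), dist_comm (u := s) (v := v), dist_comm (u := s) (v := par u),
    dist_comm (u := s) (v := par v)]
  unfold MA at h
  omega

lemma c2_of_ma {w v s : V} (hl : G.dist r v + 1 = G.dist r w) (h : MA G r w s) :
    G.dist s v ≠ dE2 G s w (par w) := by
  have h2 := B.MA_le (u := v) (s := s)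
  unfold dE2
  rw [dist_comm (u := s) (v := v), dist_comm (u := s) (v := w)]
  unfold MA at h
  omega

/-- both ends in `S0` -/
lemma both_v {a b : V} {S0 : Set V} (h : G.Adj a b) (ha : a ∈ S0) (hb : b ∈ S0) (v : V) :
    ∃ s ∈ S0, G.dist s v ≠ dE2 G s a b := by
  by_cases hv : v = a
  · subst hv
    refine ⟨b, hb, ?_⟩
    have : G.dist b v = 1 := dist_eq_one_iff_adj.2 h.symm
    simp [dE2, this]
  · refine ⟨a, ha, ?_⟩
    have : G.dist a v ≠ 0 := by
      rw [Ne, B.conn.dist_eq_zero_iff]; exact fun h => hv h.symm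
    simp [dE2, this]

lemma both_e {a b c d : V} {S0 : Set V} (h : G.Adj a b) (ha : a ∈ S0) (hb : b ∈ S0)
    (hne : s(c, d) ≠ s(a, b)) :
    ∃ s ∈ S0, dE2 G s c d ≠ dE2 G s a b := by
  by_contra hcon
  push Not at hcon
  have h1 := hcon a ha
  have h2 := hcon b hb
  simp only [dE2, dist_self] at h1 h2
  have h1' : G.dist a c = 0 ∨ G.dist a d = 0 := by omega
  have h2' : G.dist b c = 0 ∨ G.dist b d = 0 := by omega
  rw [B.conn.dist_eq_zero_iff, B.conn.dist_eq_zero_iff] at h1' h2'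
  apply hne
  rw [Sym2.eq_iff]
  rcases h1' with h1' | h1' <;> rcases h2' with h2' | h2'
  · exact absurd (h1'.trans h2'.symm) h.ne
  · left; exact ⟨h1'.symm, h2'.symm⟩
  · right; exact ⟨h2'.symm, h1'.symm⟩
  · exact absurd (h1'.trans h2'.symm) h.ne

/-- strong separation when at most one end `q` of a cotree edge is missing and `q` has no
cotree neighbour on a higher level -/
lemma sd [Fintype V] (hdeg : ∀ v x, ∃ y, G.Adj v y ∧ y ≠ x) {S0 : Set V} {q : V}
    (hS : ∀ s, Sp G par s → s ≠ q → s ∈ S0)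
    (hq : ∀ s, Co G par s q → G.dist r s ≤ G.dist r q) {u v : V}
    (hne : u ≠ v) (hl : G.dist r u = G.dist r v) :
    ∃ s ∈ S0, (MA G r u s ∧ ¬ MA G r v s) ∨ (MA G r v s ∧ ¬ MA G r u s) := by
  classical
  -- main case
  have main : ∀ u v : V, u ≠ v → G.dist r u = G.dist r v → ¬ Anc par v q →
      ∃ s ∈ S0, (MA G r u s ∧ ¬ MA G r v s) ∨ (MA G r v s ∧ ¬ MA G r u s) := by
    intro u v hne hl hvq
    obtain ⟨s1, hs1, hs1'⟩ := B.exists_sp hdeg v
    obtain ⟨s, hs, hmin⟩ := (Finset.univ.filter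
      (fun s => Anc par v s ∧ Sp G par s)).exists_min_image
      (fun s => G.dist r s) ⟨s1, by simp [hs1, hs1']⟩
    simp only [Finset.mem_filter, Finset.mem_univ, true_and] at hs hmin
    have hsq : s ≠ q := by rintro rfl; exact hvq hs.1
    rcases B.key hne hl hs.1 hs.2 (fun s' h1 h2 => hmin s' ⟨h1, h2⟩) with h | ⟨y, h1, h2, h3, h4⟩
    · exact ⟨s, hS s hs.2 hsq, Or.inr ⟨B.anc_MA hs.1, h⟩⟩
    · refine ⟨y, hS y ⟨s, h1.symm⟩ ?_, Or.inl ⟨h3, h4⟩⟩
      rintro rfl
      have := hq s h1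
      omega
  by_cases h : Anc par v q
  · have h' : ¬ Anc par u q := fun h' => hne (B.anc_unique h' h hl)
    obtain ⟨s, hs, h1⟩ := main v u hne.symm hl.symm h'
    exact ⟨s, hs, h1.symm⟩
  · exact main u v hne hl h

/-- base theorem: the root and all ends of cotree edges -/
theorem base [Fintype V] (hdeg : ∀ v x, ∃ y, G.Adj v y ∧ y ≠ x) {S0 : Set V}
    (hr : r ∈ S0) (hS : ∀ s, Sp G par s → s ∈ S0) : Res G S0 := by
  have hsd : ∀ u v : V, u ≠ v → G.dist r u = G.dist r v →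
      ∃ s ∈ S0, (MA G r u s ∧ ¬ MA G r v s) ∨ (MA G r v s ∧ ¬ MA G r u s) := by
    intro u v hne hl
    exact B.sd hdeg (q := r) (fun s h _ => hS s h)
      (fun s h => absurd h.symm B.not_co_root) hne hl
  apply B.assemble
  refine ⟨hr, ?_, ?_, ?_, ?_, ?_, ?_⟩
  · intro u v hne hl
    obtain ⟨s, hs, h⟩ := hsd u v hne hl
    exact ⟨s, hs, B.c1_of_sd hl h⟩
  · intro u v hne hu hv hl
    obtain ⟨s, hs, h⟩ := hsd u v hne hl
    exact ⟨s, hs, B.c1'_of_sd hu hv hl h⟩
  · intro w v hw hl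
    obtain ⟨s, hs, hs'⟩ := B.exists_sp hdeg w
    exact ⟨s, hS s hs', B.c2_of_ma hl (B.anc_MA hs)⟩
  · intro a b v h
    exact B.both_v h.1 (hS a ⟨b, h⟩) (hS b ⟨a, h.symm⟩) v
  · intro a b w h hw
    refine B.both_e h.1 (hS a ⟨b, h⟩) (hS b ⟨a, h.symm⟩) ?_
    intro he
    rw [Sym2.eq_iff] at he
    rcases he with ⟨h1, h2⟩ | ⟨h1, h2⟩
    · subst h1; exact h.2.1 h2
    · subst h1; exact h.2.2 h2
  · intro a b c d h g hne
    obtain ⟨s, hs, h'⟩ := B.both_e h.1 (hS a ⟨b, h⟩) (hS b ⟨a, h.symm⟩) (c := c) (d := d) hne.symm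
    exact ⟨s, hs, h'.symm⟩

end BT

end Pool.Agent.TH452.Mix
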