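import Pool.Agent.TH452.MixB

set_option autoImplicit false

/-!
# Removing one end of a cotree edge
-/

namespace Pool.Agent.TH452.Mix

open SimpleGraph

variable {V : Type*} {G : SimpleGraph V} {r : V} {par : V → V}

/-- distances from `z` along a path all of whose inner vertices have degree two -/
lemma chain (hc : G.Connected) {z : V} {c : ℕ → V} {m : ℕ}
    (h1 : G.dist z (c 1) + 1 = G.dist z (c 0))
    (hn : ∀ i, 0 < i → i < m → ∀ w, G.Adj (c i) w → w = c (i - 1) ∨ w = c (i + 1))
    (hz : ∀ i, 0 < i → i < m → z ≠ c i) :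
    ∀ j, j ≤ m → G.dist z (c j) + j = G.dist z (c 0) := by
  intro j
  induction j using Nat.strong_induction_on with
  | _ j ih =>
    intro hj
    rcases j with _ | _ | j
    · simp
    · exact h1
    · have e1 := ih (j + 1) (by omega) (by omega)
      have e0 := ih j (by omega) (by omega)
      obtain ⟨w, hw, hd⟩ := exists_closer hc (hz (j + 1) (by omega) (by omega))
      rcases hn (j + 1) (by omega) (by omega) w hw with h | h
      · simp only [Nat.add_sub_cancel] at h
        subst h
        omega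
      · subst h
        have : j + 1 + 1 = j + 2 := rfl
        omega

lemma dist_iter_le (hc : G.Connected) (B : BT G r par) (z t : V) (i : ℕ) :
    G.dist z t ≤ G.dist z (par^[i] t) + i := by
  induction i generalizing t with
  | zero => simp
  | succ i ih =>
    rw [Function.iterate_succ_apply]
    have h1 := ih (par t)
    by_cases h : t = r
    · subst h
      rw [B.par_r] at h1 ⊢
      omega
    · have := dist_adj_le hc (u := z) (B.par_adj t h).symm
      omega

lemma dist_iter_self_le (hc : G.Connected) (B : BT G r par) (t : V) (i : ℕ) :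
    G.dist t (par^[i] t) ≤ i := by
  induction i with
  | zero => simp
  | succ i ih =>
    rw [Function.iterate_succ_apply']
    by_cases h : par^[i] t = r
    · rw [h, B.par_r, ← h]; omega
    · have := dist_adj_le hc (u := t) (B.par_adj _ h)
      omega

namespace BT

variable (B : BT G r par)
include B

/-- metric ancestors on a path where each vertex has a unique neighbour one level up -/
lemma unique_up {t v : V} {m j : ℕ}
    (hup : ∀ i, i < m → ∀ w, G.Adj (par^[i] t) w → G.dist r w < G.dist r (par^[i] t) →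
      w = par^[i + 1] t)
    (hv : MA G r v t) (hl : G.dist r v + j = G.dist r t) (hj : j ≤ m) :
    v = par^[j] t := by
  have key : ∀ i, i ≤ j → MA G r v (par^[i] t) := by
    intro i
    induction i with
    | zero => intro _; exact hv
    | succ i ih =>
      intro hi
      have h1 := ih (by omega)
      have h2 := B.lev_iter i t
      have hne : v ≠ par^[i] t := by
        intro h
        rw [← h] at h2
        omega
      obtain ⟨z, hz, hz1, hz2⟩ := B.MA_step h1 hne
      have := hup i (by omega) z hz (by omega)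
      rw [← this]
      exact hz1
  have h1 := key j le_rfl
  have h2 := B.lev_iter j t
  unfold MA at h1
  exact B.conn.dist_eq_zero_iff.1 (by omega)

lemma inner_not_sp {c d e : V} (hn : ∀ w, G.Adj d w → w = c ∨ w = e)
    (h1 : par c = d) (h2 : par d = e) : ¬ Sp G par d := by
  rintro ⟨w, hw, h3, h4⟩
  rcases hn w hw with h | h
  · subst h; exact h4 h1
  · subst h; exact h3 h2

/-- The set used. -/
def S0 (_ : BT G r par) (q : V) : Set V := {s | s = r ∨ (Sp G par s ∧ s ≠ q)}

/-- Case 1: the cotree edge `s0 t0` has both ends on the same level. -/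
theorem case1 [Fintype V] (hdeg : ∀ v x, ∃ y, G.Adj v y ∧ y ≠ x)
    {s0 t0 : V} (hco : Co G par s0 t0) (hlev : G.dist r s0 = G.dist r t0)
    (hs0 : ∀ w, G.Adj s0 w → w = par s0 ∨ w = t0)
    (ht0 : ∀ w, G.Adj t0 w → w = par t0 ∨ w = s0)
    {a b : ℕ} (hab : a ≤ b) (ha1 : 1 ≤ a)
    (hx : ∀ i, 0 < i → i < a → ∀ w, G.Adj (par^[i] s0) w →
      w = par^[i - 1] s0 ∨ w = par^[i + 1] s0)
    (hy : ∀ i, 0 < i → i < b → ∀ w, G.Adj (par^[i] t0) w →
      w = par^[i - 1] t0 ∨ w = par^[i + 1] t0)
    (hA : ∃ s, Anc par (par^[a] s0) s ∧ Sp G par s ∧ s ≠ s0)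
    {z : V} (hz : Sp G par z) (hz0 : z ≠ s0) (hd : G.dist z s0 < G.dist z t0) :
    Res G (B.S0 s0) := by
  have hc := B.conn
  have hs0r : s0 ≠ r := by rintro rfl; exact B.not_co_root hco
  have ht0r : t0 ≠ r := by rintro rfl; exact B.not_co_root hco.symm
  have hst : s0 ≠ t0 := hco.1.ne
  have hmem : ∀ s, Sp G par s → s ≠ s0 → s ∈ B.S0 s0 := fun s h1 h2 => Or.inr ⟨h1, h2⟩
  have hrm : r ∈ B.S0 s0 := Or.inl rfl
  have ht0m : t0 ∈ B.S0 s0 := hmem t0 ⟨s0, hco.symm⟩ hst.symm
  have hzm : z ∈ B.S0 s0 := hmem z hz hz0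
  have honly : ∀ w, Co G par s0 w → w = t0 := by
    intro w hw
    rcases hs0 w hw.1 with h | h
    · exact absurd h.symm hw.2.1
    · exact h
  have hq : ∀ s, Co G par s s0 → G.dist r s ≤ G.dist r s0 := by
    intro s hs
    rw [honly s hs.symm, hlev]
  have hsd : ∀ u v : V, u ≠ v → G.dist r u = G.dist r v →
      ∃ s ∈ B.S0 s0, (MA G r u s ∧ ¬ MA G r v s) ∨ (MA G r v s ∧ ¬ MA G r u s) :=
    fun u v hne hl => B.sd hdeg hmem hq hne hl
  -- the cotree edge through s0
  have hcot : ∀ a b, Co G par a b → (a = s0 ∧ b = t0) ∨ (a = t0 ∧ b = s0) ∨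
      (a ∈ B.S0 s0 ∧ b ∈ B.S0 s0) := by
    intro a b h
    by_cases h1 : a = s0
    · subst h1; exact Or.inl ⟨rfl, honly b h⟩
    · by_cases h2 : b = s0
      · subst h2; exact Or.inr (Or.inl ⟨honly a h.symm, rfl⟩)
      · exact Or.inr (Or.inr ⟨hmem a ⟨b, h⟩ h1, hmem b ⟨a, h.symm⟩ h2⟩)
  -- f0 versus vertices
  have f0v : ∀ v, ∃ s ∈ B.S0 s0, G.dist s v ≠ dE2 G s s0 t0 := by
    intro v
    by_cases hv : v = t0
    · subst hv
      refine ⟨z, hzm, ?_⟩
      unfold dE2; omega
    · refine ⟨t0, ht0m, ?_⟩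
      have : G.dist t0 v ≠ 0 := by
        rw [Ne, hc.dist_eq_zero_iff]; exact fun h => hv h.symm
      simp [dE2, this]
  have f0t : ∀ w, w ≠ r → ∃ s ∈ B.S0 s0, dE2 G s w (par w) ≠ dE2 G s s0 t0 := by
    intro w hw
    by_cases h0 : dE2 G t0 w (par w) = 0
    · have h0' : G.dist t0 w = 0 ∨ G.dist t0 (par w) = 0 := by unfold dE2 at h0; omega
      rw [hc.dist_eq_zero_iff, hc.dist_eq_zero_iff] at h0'
      rcases h0' with h | h
      · subst h
        refine ⟨r, hrm, ?_⟩
        have := B.par_lev t0 hw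
        unfold dE2; omega
      · exfalso
        have hadj := B.par_adj w hw
        rw [← h] at hadj
        rcases ht0 w hadj.symm with h1 | h1
        · have e1 := B.lev_par w
          have e2 := B.lev_par t0
          have e3 := B.par_lev w hw
          rw [← h] at e1 e3
          rw [← h1] at e2
          omega
        · subst h1
          exact hco.2.1 h.symm
    · refine ⟨t0, ht0m, ?_⟩
      simp only [dE2, dist_self] at h0 ⊢
      omega
  have f0c : ∀ c d, Co G par c d → s(c, d) ≠ s(s0, t0) →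
      ∃ s ∈ B.S0 s0, dE2 G s c d ≠ dE2 G s s0 t0 := by
    intro c d h hne
    rcases hcot c d h with ⟨rfl, rfl⟩ | ⟨rfl, rfl⟩ | ⟨h1, h2⟩
    · exact absurd rfl hne
    · exact absurd Sym2.eq_swap hne
    · obtain ⟨s, hs, h'⟩ := B.both_e h.1 h1 h2 hne.symm
      exact ⟨s, hs, h'.symm⟩
  apply B.assemble
  refine ⟨hrm, ?_, ?_, ?_, ?_, ?_, ?_⟩
  · intro u v hne hl
    obtain ⟨s, hs, h⟩ := hsd u v hne hl
    exact ⟨s, hs, B.c1_of_sd hl h⟩
  · intro u v hne hu hv hl
    obtain ⟨s, hs, h⟩ := hsd u v hne hl
    exact ⟨s, hs, B.c1'_of_sd hu hv hl h⟩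
  · -- c2
    intro w v hw hl
    by_cases hex : ∃ s, Anc par w s ∧ Sp G par s ∧ s ≠ s0
    · obtain ⟨s, h1, h2, h3⟩ := hex
      exact ⟨s, hmem s h2 h3, B.c2_of_ma hl (B.anc_MA h1)⟩
    · push Not at hex
      obtain ⟨s, h1, h2⟩ := B.exists_sp hdeg w
      have h3 := hex s h1 h2
      subst h3
      obtain ⟨i, hi⟩ := h1
      have hia : i < a := by
        by_contra hge
        push Not at hge
        obtain ⟨s', ⟨j, hj⟩, h4, h5⟩ := hA
        refine h5 (hex s' ⟨(i - a) + j, ?_⟩ h4)
        rw [Function.iterate_add_apply, hj, ← Function.iterate_add_apply,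
          Nat.sub_add_cancel hge, hi]
      by_contra hcon
      push Not at hcon
      have hpw : par w = par^[i + 1] s := by rw [Function.iterate_succ_apply', hi]
      have hlw : G.dist r w = G.dist r s - i := by rw [← hi]; exact B.lev_iter i s
      -- t0
      have e1 := hcon t0 ht0m
      have e2 : G.dist t0 w ≤ i + 1 := by
        have e3 : G.dist t0 w ≤ G.dist t0 s + G.dist s w := hc.dist_triangle
        have e4 : G.dist t0 s = 1 := dist_eq_one_iff_adj.2 hco.1.symm
        have e5 := dist_iter_self_le hc B s i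
        rw [hi] at e5
        omega
      have e6 : G.dist t0 v ≤ i + 1 := by
        rw [e1]; unfold dE2; omega
      have e7 := B.MA_le (u := v) (s := t0)
      rw [dist_comm (u := v) (v := t0)] at e7
      have hMA : MA G r v t0 := by
        unfold MA; rw [dist_comm (u := v) (v := t0)]; omega
      have hv : v = par^[i + 1] t0 := by
        refine B.unique_up (m := b) ?_ hMA (by omega) (by omega)
        intro k hk w' hw' hlt
        rcases Nat.eq_zero_or_pos k with h0 | h0
        · subst h0
          rcases ht0 w' hw' with h | h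
          · exact h
          · subst h
            simp only [Function.iterate_zero, id] at hlt
            omega
        · rcases hy k h0 hk w' hw' with h | h
          · have l1 := B.lev_iter (k - 1) t0
            have l2 := B.lev_iter k t0
            rw [← h] at l1
            omega
          · exact h
      -- z
      have c1 : G.dist z (par^[1] s) + 1 = G.dist z s := by
        obtain ⟨w', hw', hd'⟩ := exists_closer hc hz0
        rcases hs0 w' hw' with h | h
        · subst h; exact hd'
        · subst h; omega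
      have c2 := chain hc (z := z) (c := fun i => par^[i] s) (m := a) c1 hx ?_ (i + 1) (by omega)
      · simp only [Function.iterate_zero, id] at c2
        have c3 := dist_iter_le hc B z t0 (i + 1)
        have c4 := hcon z hzm
        rw [← hv] at c3
        rw [← hpw] at c2
        unfold dE2 at c4
        omega
      · rintro k hk1 hk2 rfl
        refine B.inner_not_sp (hx k hk1 hk2) ?_ ?_ hz
        · rw [← Function.iterate_succ_apply' par, Nat.succ_eq_add_one, Nat.sub_add_cancel hk1]
        · rw [← Function.iterate_succ_apply' par]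
  · intro a b v h
    rcases hcot a b h with ⟨rfl, rfl⟩ | ⟨rfl, rfl⟩ | ⟨h1, h2⟩
    · exact f0v v
    · obtain ⟨s, hs, h'⟩ := f0v v
      exact ⟨s, hs, by rwa [dE2_comm (a := a)]⟩
    · exact B.both_v h.1 h1 h2 v
  · intro a b w h hw
    rcases hcot a b h with ⟨rfl, rfl⟩ | ⟨rfl, rfl⟩ | ⟨h1, h2⟩
    · exact f0t w hw
    · obtain ⟨s, hs, h'⟩ := f0t w hw
      exact ⟨s, hs, by rwa [dE2_comm (a := a)]⟩
    · refine B.both_e h.1 h1 h2 ?_
      intro he
      rw [Sym2.eq_iff] at he
      rcases he with ⟨g1, g2⟩ | ⟨g1, g2⟩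
      · subst g1; exact h.2.1 g2
      · subst g1; exact h.2.2 g2
  · intro a b c d h g hne
    rcases hcot a b h with ⟨rfl, rfl⟩ | ⟨rfl, rfl⟩ | ⟨h1, h2⟩
    · obtain ⟨s, hs, h'⟩ := f0c c d g hne.symm
      exact ⟨s, hs, h'.symm⟩
    · obtain ⟨s, hs, h'⟩ := f0c c d g (by rw [Sym2.eq_swap (a := b)]; exact hne.symm)
      exact ⟨s, hs, by rw [dE2_comm (a := a)]; exact h'.symm⟩
    · obtain ⟨s, hs, h'⟩ := B.both_e h.1 h1 h2 hne.symm
      exact ⟨s, hs, h'.symm⟩

end BT

end Pool.Agent.TH452.Mix
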