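import Pool.Agent.TH452.MixC

set_option autoImplicit false

/-!
# Removing one end of a cotree edge, second case
-/

namespace Pool.Agent.TH452.Mix

open SimpleGraph

variable {V : Type*} {G : SimpleGraph V} {r : V} {par : V → V}

/-- the path from `s0` over `q` upwards -/
def yseq (par : V → V) (s0 q : V) : ℕ → V
  | 0 => s0
  | (j + 1) => par^[j] q

namespace BT

variable (B : BT G r par)
include B

/-- Case 2: the cotree edge `s0 q` has `s0` one level below `q`. -/
theorem case2 [Fintype V] (hdeg : ∀ v x, ∃ y, G.Adj v y ∧ y ≠ x)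
    {s0 q : V} (hco : Co G par s0 q) (hlev : G.dist r s0 = G.dist r q + 1)
    (hmax : ∀ v, G.dist r v ≤ G.dist r s0)
    (hs0 : ∀ w, G.Adj s0 w → w = par s0 ∨ w = q)
    (hqm : ∀ w, Co G par q w → w = s0)
    {a b : ℕ} (hab : a ≤ b) (ha1 : 1 ≤ a)
    (hx : ∀ i, 0 < i → i < a → ∀ w, G.Adj (par^[i] s0) w →
      w = par^[i - 1] s0 ∨ w = par^[i + 1] s0)
    (hy : ∀ i, 0 < i → i < b → ∀ w, G.Adj (yseq par s0 q i) w →
      w = yseq par s0 q (i - 1) ∨ w = yseq par s0 q (i + 1))
    (hA : ∃ s, Anc par (par^[a] s0) s ∧ Sp G par s ∧ s ≠ s0)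
    {z : V} (hz : Sp G par z) (hz0 : z ≠ s0) (hzq : z ≠ q)
    (hd : G.dist z (par s0) ≠ G.dist z q) :
    Res G (B.S0 q) := by
  classical
  have hc := B.conn
  have hs0r : s0 ≠ r := by rintro rfl; exact B.not_co_root hco
  have hqr : q ≠ r := by rintro rfl; exact B.not_co_root hco.symm
  have hsq : s0 ≠ q := hco.1.ne
  have hmem : ∀ s, Sp G par s → s ≠ q → s ∈ B.S0 q := fun s h1 h2 => Or.inr ⟨h1, h2⟩
  have hrm : r ∈ B.S0 q := Or.inl rfl
  have hs0m : s0 ∈ B.S0 q := hmem s0 ⟨q, hco⟩ hsq
  have hzm : z ∈ B.S0 q := hmem z hz hzq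
  -- closer neighbours of `s0`
  have hclose : G.dist z (par s0) + 1 = G.dist z s0 ∨ G.dist z q + 1 = G.dist z s0 := by
    obtain ⟨w', hw', hd'⟩ := exists_closer hc hz0
    rcases hs0 w' hw' with h | h
    · subst h; exact Or.inl hd'
    · subst h; exact Or.inr hd'
  have hup1 := dist_adj_le hc (u := z) (B.par_adj s0 hs0r).symm
  have hup2 := dist_adj_le hc (u := z) hco.1.symm
  -- separation of the exceptional pairs
  have hpair : ∀ i, 0 < i → i < a →
      G.dist z (par^[i] s0) ≠ G.dist z (par^[i - 1] q) ∧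
      dE2 G z (par^[i] s0) (par^[i + 1] s0) ≠ dE2 G z (par^[i - 1] q) (par^[i] q) := by
    intro i hi0 hia
    have e1 := dist_iter_le hc B z (par s0) (i - 1)
    have e2 := dist_iter_le hc B z (par s0) i
    rw [← Function.iterate_succ_apply, Nat.succ_eq_add_one] at e2
    rw [← Function.iterate_succ_apply, Nat.succ_eq_add_one, Nat.sub_add_cancel hi0] at e1
    have e3 := dist_iter_le hc B z q (i - 1)
    have e4 := dist_iter_le hc B z q i
    rcases lt_or_gt_of_ne hd with h | h
    · have c1 : G.dist z (par^[1] s0) + 1 = G.dist z s0 := by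
        change G.dist z (par s0) + 1 = _
        omega
      have hin : ∀ k, 0 < k → k < a → z ≠ par^[k] s0 := by
        rintro k hk1 hk2 rfl
        refine B.inner_not_sp (hx k hk1 hk2) ?_ ?_ hz
        · rw [← Function.iterate_succ_apply' par, Nat.succ_eq_add_one, Nat.sub_add_cancel hk1]
        · rw [← Function.iterate_succ_apply' par]
      have c2 := chain hc (z := z) (c := fun i => par^[i] s0) (m := a) c1 hx hin i (by omega)
      have c3 := chain hc (z := z) (c := fun i => par^[i] s0) (m := a) c1 hx hin (i + 1) (by omega)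
      simp only [Function.iterate_zero, id] at c2 c3
      change G.dist z (par s0) + 1 = _ at c1
      constructor
      · omega
      · unfold dE2; omega
    · have c1 : G.dist z (yseq par s0 q 1) + 1 = G.dist z (yseq par s0 q 0) := by
        change G.dist z q + 1 = G.dist z s0
        omega
      have hin : ∀ k, 0 < k → k < b → z ≠ yseq par s0 q k := by
        rintro k hk1 hk2 rfl
        obtain ⟨k, rfl⟩ : ∃ k', k = k' + 1 := ⟨k - 1, by omega⟩
        rcases Nat.eq_zero_or_pos k with h0 | h0
        · subst h0; exact hzq rfl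
        · obtain ⟨k, rfl⟩ : ∃ k', k = k' + 1 := ⟨k - 1, by omega⟩
          refine B.inner_not_sp (hy _ hk1 hk2) ?_ ?_ hz
          · change par (par^[k] q) = par^[k + 1] q
            rw [← Function.iterate_succ_apply' par]
          · change par (par^[k + 1] q) = par^[k + 1 + 1] q
            rw [← Function.iterate_succ_apply' par]
      have c2 := chain hc (z := z) (c := yseq par s0 q) (m := b) c1 hy hin i (by omega)
      have c3 := chain hc (z := z) (c := yseq par s0 q) (m := b) c1 hy hin (i + 1) (by omega)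
      obtain ⟨i, rfl⟩ : ∃ k', i = k' + 1 := ⟨i - 1, by omega⟩
      change G.dist z (par^[i] q) + (i + 1) = G.dist z s0 at c2
      change G.dist z (par^[i + 1] q) + (i + 1 + 1) = G.dist z s0 at c3
      change G.dist z q + 1 = G.dist z s0 at c1
      simp only [Nat.add_sub_cancel] at *
      constructor
      · omega
      · unfold dE2; omega
  -- main separation
  have main : ∀ u v : V, u ≠ v → G.dist r u = G.dist r v → ¬ Anc par v q →
      (∃ s ∈ B.S0 q, (MA G r u s ∧ ¬ MA G r v s) ∨ (MA G r v s ∧ ¬ MA G r u s)) ∨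
      (∃ i, 0 < i ∧ i < a ∧ v = par^[i] s0 ∧ u = par^[i - 1] q) := by
    intro u v hne hl hvq
    obtain ⟨s1, hs1, hs1'⟩ := B.exists_sp hdeg v
    obtain ⟨s, hs, hmin⟩ := (Finset.univ.filter
      (fun s => Anc par v s ∧ Sp G par s)).exists_min_image
      (fun s => G.dist r s) ⟨s1, by simp [hs1, hs1']⟩
    simp only [Finset.mem_filter, Finset.mem_univ, true_and] at hs hmin
    have hsq : s ≠ q := by rintro rfl; exact hvq hs.1
    rcases B.key hne hl hs.1 hs.2 (fun s' h1 h2 => hmin s' ⟨h1, h2⟩) with h | ⟨y, h1, h2, h3, h4⟩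
    · exact Or.inl ⟨s, hmem s hs.2 hsq, Or.inr ⟨B.anc_MA hs.1, h⟩⟩
    · by_cases hyq : y = q
      · subst hyq
        have hss : s = s0 := hqm s h1.symm
        subst hss
        by_cases hex : ∃ s', Anc par v s' ∧ Sp G par s' ∧ s' ≠ s
        · left
          obtain ⟨s', g1, g2, g3⟩ := hex
          have g4 : s' ≠ y := by rintro rfl; exact hvq g1
          have hmin' : ∀ s'', Anc par v s'' → Sp G par s'' → G.dist r s' ≤ G.dist r s'' :=
            fun s'' k1 k2 => (hmax s').trans (hmin s'' ⟨k1, k2⟩)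
          rcases B.key hne hl g1 g2 hmin' with h | ⟨y', h1', h2', h3', h4'⟩
          · exact ⟨s', hmem s' g2 g4, Or.inr ⟨B.anc_MA g1, h⟩⟩
          · refine ⟨y', hmem y' ⟨s', h1'.symm⟩ ?_, Or.inl ⟨h3', h4'⟩⟩
            rintro rfl
            exact g3 (hqm s' h1'.symm)
        · right
          push Not at hex
          obtain ⟨i, hi⟩ := hs.1
          have hi0 : 0 < i := by
            rcases Nat.eq_zero_or_pos i with h0 | h0
            · subst h0
              simp only [Function.iterate_zero, id] at hi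
              subst hi
              unfold MA at h3
              omega
            · exact h0
          have hia : i < a := by
            by_contra hge
            push Not at hge
            obtain ⟨s', ⟨j, hj⟩, h4, h5⟩ := hA
            refine h5 (hex s' ⟨(i - a) + j, ?_⟩ h4)
            rw [Function.iterate_add_apply, hj, ← Function.iterate_add_apply,
              Nat.sub_add_cancel hge, hi]
          refine ⟨i, hi0, hia, hi.symm, ?_⟩
          have hlv : G.dist r v = G.dist r s - i := by rw [← hi]; exact B.lev_iter i s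
          have hle : i ≤ G.dist r s := by
            by_contra hcon
            push Not at hcon
            have h0 : G.dist r v = 0 := by omega
            have h0' : G.dist r u = 0 := by omega
            rw [B.lev_eq_zero] at h0 h0'
            exact hne (h0'.trans h0.symm)
          refine B.unique_up (m := b - 1) ?_ h3 (by omega) (by omega)
          intro k hk w' hw' hlt
          have := hy (k + 1) (by omega) (by omega) w' hw'
          rcases this with h | h
          · simp only [Nat.add_sub_cancel] at h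
            rcases Nat.eq_zero_or_pos k with h0 | h0
            · subst h0
              change w' = s at h
              subst h
              simp only [Function.iterate_zero, id] at hlt
              omega
            · obtain ⟨k, rfl⟩ : ∃ k', k = k' + 1 := ⟨k - 1, by omega⟩
              change w' = par^[k] y at h
              have l1 := B.lev_iter k y
              have l2 := B.lev_iter (k + 1) y
              rw [← h] at l1
              omega
          · exact h
      · exact Or.inl ⟨y, hmem y ⟨s, h1.symm⟩ hyq, Or.inl ⟨h3, h4⟩⟩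
  have honly : ∀ w, Co G par s0 w → w = q := by
    intro w hw
    rcases hs0 w hw.1 with h | h
    · exact absurd h.symm hw.2.1
    · exact h
  -- the cotree edge through q
  have hcot : ∀ a b, Co G par a b → (a = s0 ∧ b = q) ∨ (a = q ∧ b = s0) ∨
      (a ∈ B.S0 q ∧ b ∈ B.S0 q) := by
    intro a b h
    by_cases h1 : a = q
    · subst h1; exact Or.inr (Or.inl ⟨rfl, hqm b h⟩)
    · by_cases h2 : b = q
      · subst h2; exact Or.inl ⟨hqm a h.symm, rfl⟩
      · exact Or.inr (Or.inr ⟨hmem a ⟨b, h⟩ h1, hmem b ⟨a, h.symm⟩ h2⟩)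
  have f0v : ∀ v, ∃ s ∈ B.S0 q, G.dist s v ≠ dE2 G s s0 q := by
    intro v
    by_cases hv : v = s0
    · subst hv
      refine ⟨r, hrm, ?_⟩
      unfold dE2; omega
    · refine ⟨s0, hs0m, ?_⟩
      have : G.dist s0 v ≠ 0 := by
        rw [Ne, hc.dist_eq_zero_iff]; exact fun h => hv h.symm
      simp [dE2, this]
  have f0t : ∀ w, w ≠ r → ∃ s ∈ B.S0 q, dE2 G s w (par w) ≠ dE2 G s s0 q := by
    intro w hw
    by_cases h0 : dE2 G s0 w (par w) = 0
    · have h0' : G.dist s0 w = 0 ∨ G.dist s0 (par w) = 0 := by unfold dE2 at h0; omega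
      rw [hc.dist_eq_zero_iff, hc.dist_eq_zero_iff] at h0'
      rcases h0' with h | h
      · subst h
        refine ⟨z, hzm, ?_⟩
        unfold dE2; omega
      · exfalso
        have hadj := B.par_adj w hw
        rw [← h] at hadj
        rcases hs0 w hadj.symm with h1 | h1
        · have e1 := B.lev_par w
          have e2 := B.lev_par s0
          have e3 := B.par_lev w hw
          rw [← h] at e1 e3
          rw [← h1] at e2
          omega
        · subst h1
          exact hco.2.2 h.symm
    · refine ⟨s0, hs0m, ?_⟩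
      simp only [dE2, dist_self] at h0 ⊢
      omega
  have f0c : ∀ c d, Co G par c d → s(c, d) ≠ s(s0, q) →
      ∃ s ∈ B.S0 q, dE2 G s c d ≠ dE2 G s s0 q := by
    intro c d h hne
    rcases hcot c d h with ⟨rfl, rfl⟩ | ⟨rfl, rfl⟩ | ⟨h1, h2⟩
    · exact absurd rfl hne
    · exact absurd Sym2.eq_swap hne
    · obtain ⟨s, hs, h'⟩ := B.both_e h.1 h1 h2 hne.symm
      exact ⟨s, hs, h'.symm⟩
  apply B.assemble
  refine ⟨hrm, ?_, ?_, ?_, ?_, ?_, ?_⟩
  · intro u v hne hl
    by_cases hv : Anc par v q
    · have hu : ¬ Anc par u q := fun h' => hne (B.anc_unique h' hv hl)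
      rcases main v u hne.symm hl.symm hu with ⟨s, hs, h⟩ | ⟨i, h1, h2, h3, h4⟩
      · exact ⟨s, hs, B.c1_of_sd hl h.symm⟩
      · refine ⟨z, hzm, ?_⟩
        rw [h3, h4]
        exact (hpair i h1 h2).1
    · rcases main u v hne hl hv with ⟨s, hs, h⟩ | ⟨i, h1, h2, h3, h4⟩
      · exact ⟨s, hs, B.c1_of_sd hl h⟩
      · refine ⟨z, hzm, ?_⟩
        rw [h3, h4]
        exact (hpair i h1 h2).1.symm
  · intro u v hne hu hv hl
    have hs : ∀ i, 0 < i → par (par^[i] s0) = par^[i + 1] s0 ∧ par (par^[i - 1] q) = par^[i] q := by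
      intro i hi
      refine ⟨by rw [Function.iterate_succ_apply'], ?_⟩
      rw [← Function.iterate_succ_apply' par, Nat.succ_eq_add_one, Nat.sub_add_cancel hi]
    by_cases hv' : Anc par v q
    · have hu' : ¬ Anc par u q := fun h' => hne (B.anc_unique h' hv' hl)
      rcases main v u hne.symm hl.symm hu' with ⟨s, hs, h⟩ | ⟨i, h1, h2, h3, h4⟩
      · exact ⟨s, hs, B.c1'_of_sd hu hv hl h.symm⟩
      · refine ⟨z, hzm, ?_⟩
        rw [h3, h4, (hs i h1).1, (hs i h1).2]
        exact (hpair i h1 h2).2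
    · rcases main u v hne hl hv' with ⟨s, hs, h⟩ | ⟨i, h1, h2, h3, h4⟩
      · exact ⟨s, hs, B.c1'_of_sd hu hv hl h⟩
      · refine ⟨z, hzm, ?_⟩
        rw [h3, h4, (hs i h1).1, (hs i h1).2]
        exact (hpair i h1 h2).2.symm
  · -- c2
    intro w v hw hl
    obtain ⟨s, h1, h2⟩ := B.exists_sp hdeg w
    by_cases hsq' : s = q
    · subst hsq'
      refine ⟨s0, hs0m, B.c2_of_ma hl ?_⟩
      have e1 := B.anc_MA h1
      have e2 := B.MA_le (u := w) (s := s0)
      have e3 := dist_adj_le hc (u := w) hco.1.symm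
      unfold MA at *
      omega
    · exact ⟨s, hmem s h2 hsq', B.c2_of_ma hl (B.anc_MA h1)⟩
  · intro a b v h
    rcases hcot a b h with ⟨rfl, rfl⟩ | ⟨rfl, rfl⟩ | ⟨h1, h2⟩
    · exact f0v v
    · obtain ⟨s, hs, h'⟩ := f0v v
      exact ⟨s, hs, by rwa [dE2_comm (a := a)]⟩
    · exact B.both_v h.1 h1 h2 v
  · intro a b w h hw
    rcases hcot a b h with ⟨rfl, rfl⟩ | ⟨rfl, rfl⟩ | ⟨h1, h2⟩
    · exact f0t w hw
    · obtain ⟨s, hs, h'⟩ := f0t w hw
      exact ⟨s, hs, by rwa [dE2_comm (a := a)]⟩
    · refine B.both_e h.1 h1 h2 ?_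
      intro he
      rw [Sym2.eq_iff] at he
      rcases he with ⟨g1, g2⟩ | ⟨g1, g2⟩
      · subst g1; exact h.2.1 g2
      · subst g1; exact h.2.2 g2
  · intro a b c d h g hne
    rcases hcot a b h with ⟨rfl, rfl⟩ | ⟨rfl, rfl⟩ | ⟨h1, h2⟩
    · obtain ⟨s, hs, h'⟩ := f0c c d g hne.symm
      exact ⟨s, hs, h'.symm⟩
    · obtain ⟨s, hs, h'⟩ := f0c c d g (by rw [Sym2.eq_swap (a := b)]; exact hne.symm)
      exact ⟨s, hs, by rw [dE2_comm (a := a)]; exact h'.symm⟩
    · obtain ⟨s, hs, h'⟩ := B.both_e h.1 h1 h2 hne.symm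
      exact ⟨s, hs, h'.symm⟩

end BT

end Pool.Agent.TH452.Mix
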