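import Pool.Agent.TH452.MixD

set_option autoImplicit false

/-!
# The choice of the removed vertex
-/

namespace Pool.Agent.TH452.Mix

open SimpleGraph

variable {V : Type*} {G : SimpleGraph V} {r : V} {par : V → V}

/-- degree at least three -/
def Deg3 (G : SimpleGraph V) (v : V) : Prop := ∀ p q, ∃ w, G.Adj v w ∧ w ≠ p ∧ w ≠ q

/-- the cotree edges form a matching -/
def Matching (G : SimpleGraph V) (par : V → V) : Prop :=
  ∀ u v w, Co G par u v → Co G par u w → v = w

lemma nbrs_of_not_deg3 {v c d : V} (h : ¬ Deg3 G v) (hc : G.Adj v c) (hd : G.Adj v d)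
    (hcd : c ≠ d) : ∀ w, G.Adj v w → w = c ∨ w = d := by
  unfold Deg3 at h
  push Not at h
  obtain ⟨p, q, h⟩ := h
  intro w hw
  have h1 := h c hc
  have h2 := h d hd
  have h3 := h w hw
  by_cases hcp : c = p
  · have hdq := h2 (fun e => hcd (hcp.trans e.symm))
    by_cases hwp : w = p
    · left; rw [hwp, hcp]
    · right; rw [h3 hwp, hdq]
  · have hcq := h1 hcp
    by_cases hdp : d = p
    · by_cases hwp : w = p
      · right; rw [hwp, hdp]
      · left; rw [h3 hwp, hcq]
    · exact absurd (hcq.trans (h2 hdp).symm) hcd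

namespace BT

variable (B : BT G r par)
include B

lemma iter_lev_root (v : V) : par^[G.dist r v] v = r := by
  rw [← B.lev_eq_zero, B.lev_iter]; omega

/-- inner vertices of a thread -/
lemma inner_nbrs (hr : Deg3 G r) {s : V} {i : ℕ} (hi : 0 < i) (h : ¬ Deg3 G (par^[i] s)) :
    ∀ w, G.Adj (par^[i] s) w → w = par^[i - 1] s ∨ w = par^[i + 1] s := by
  obtain ⟨i, rfl⟩ : ∃ k', i = k' + 1 := ⟨i - 1, by omega⟩
  simp only [Nat.add_sub_cancel]
  have hr1 : par^[i + 1] s ≠ r := fun e => h (e ▸ hr)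
  have hr0 : par^[i] s ≠ r := by
    intro e
    apply hr1
    rw [Function.iterate_succ_apply', e, B.par_r]
  have hA1 : G.Adj (par^[i + 1] s) (par^[i] s) := by
    rw [Function.iterate_succ_apply']
    exact (B.par_adj _ hr0).symm
  have hA2 : G.Adj (par^[i + 1] s) (par^[i + 1 + 1] s) := by
    rw [Function.iterate_succ_apply' par (i + 1)]
    exact B.par_adj _ hr1
  refine nbrs_of_not_deg3 h hA1 hA2 ?_
  intro e
  have l0 := B.par_lev _ hr0
  have l1 := B.par_lev _ hr1
  rw [← Function.iterate_succ_apply' par] at l0 l1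
  rw [← e] at l1
  simp only [Nat.succ_eq_add_one] at l0
  omega

/-- a second cotree end below a vertex of degree three -/
lemma other [Fintype V] (hdeg : ∀ v x, ∃ y, G.Adj v y ∧ y ≠ x) (hr : Deg3 G r)
    {s0 : V} {a : ℕ} (ha : Deg3 G (par^[a] s0)) (ha' : ∀ i, i < a → ¬ Deg3 G (par^[i] s0))
    (ha1 : 1 ≤ a) :
    ∃ s, Anc par (par^[a] s0) s ∧ Sp G par s ∧ s ≠ s0 := by
  obtain ⟨k, rfl⟩ : ∃ k', a = k' + 1 := ⟨a - 1, by omega⟩
  have hk := ha' k (by omega)
  have hkr : par^[k] s0 ≠ r := fun e => hk (e ▸ hr)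
  have hpk : par (par^[k] s0) = par^[k + 1] s0 := by rw [Function.iterate_succ_apply']
  obtain ⟨w, hw, hw1, hw2⟩ := ha (par (par^[k + 1] s0)) (par^[k] s0)
  by_cases hco : Co G par (par^[k + 1] s0) w
  · refine ⟨_, ⟨0, rfl⟩, ⟨w, hco⟩, ?_⟩
    intro e
    have e' : par^[k + 1] s0 = s0 := e
    exact ha' 0 (by omega) (e' ▸ ha : Deg3 G s0)
  · have hpw : par w = par^[k + 1] s0 := by
      by_contra hne
      exact hco ⟨hw, fun e => hw1 e.symm, hne⟩
    have hwr : w ≠ r := by
      rintro rfl
      rw [B.par_r] at hpw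
      exact hw.ne hpw.symm
    obtain ⟨s, ⟨j, hj⟩, hs⟩ := B.exists_sp hdeg w
    refine ⟨s, ⟨j + 1, ?_⟩, hs, ?_⟩
    · rw [Function.iterate_succ_apply', hj, hpw]
    · rintro rfl
      have l1 := B.par_lev w hwr
      have l2 := B.par_lev _ hkr
      rw [hpw] at l1
      rw [hpk] at l2
      exact hw2 (B.anc_unique ⟨j, hj⟩ ⟨k, rfl⟩ (by omega))

/-- the two ends of the thread are different -/
lemma ends_ne (hr : Deg3 G r) {s0 t0 : V}
    (hs0 : ∀ w, G.Adj s0 w → w = par s0 ∨ w = t0)
    (ht0 : ¬ Deg3 G t0 → ∀ w, G.Adj t0 w → w = par t0 ∨ w = s0)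
    {a b : ℕ} (ha : Deg3 G (par^[a] s0)) (ha' : ∀ i, i < a → ¬ Deg3 G (par^[i] s0))
    (hb' : ∀ i, i < b → ¬ Deg3 G (par^[i] t0))
    (ha1 : 1 ≤ a) (hcut : (G.induce {par^[a] s0}ᶜ).Connected) :
    par^[a] s0 ≠ par^[b] t0 := by
  intro hAB
  set A := par^[a] s0 with hA
  -- the inner vertices
  let C : Set V := {v | (∃ i, i < a ∧ v = par^[i] s0) ∨ (∃ j, j < b ∧ v = par^[j] t0)}
  have hCA : A ∉ C := by
    rintro (⟨i, hi, h⟩ | ⟨j, hj, h⟩)
    · exact ha' i hi (h ▸ ha)
    · exact hb' j hj (h ▸ ha)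
  have hclosed : ∀ v ∈ C, ∀ w, G.Adj v w → w ≠ A → w ∈ C := by
    rintro v (⟨i, hi, rfl⟩ | ⟨j, hj, rfl⟩) w hw hwA
    · rcases Nat.eq_zero_or_pos i with h0 | h0
      · subst h0
        rcases hs0 w hw with h | h
        · left
          refine ⟨1, ?_, h⟩
          rcases Nat.lt_or_ge 1 a with h1 | h1
          · exact h1
          · exfalso
            have : a = 1 := by omega
            apply hwA
            rw [hA, this]; exact h
        · right
          refine ⟨0, ?_, h⟩
          rcases Nat.eq_zero_or_pos b with h1 | h1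
          · exfalso
            apply hwA
            rw [hAB, h1]; exact h
          · exact h1
      · rcases B.inner_nbrs hr h0 (ha' i hi) w hw with h | h
        · left; exact ⟨i - 1, by omega, h⟩
        · left
          refine ⟨i + 1, ?_, h⟩
          rcases Nat.lt_or_ge (i + 1) a with h1 | h1
          · exact h1
          · exfalso
            have : a = i + 1 := by omega
            apply hwA
            rw [hA, this]; exact h
    · rcases Nat.eq_zero_or_pos j with h0 | h0
      · subst h0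
        rcases ht0 (hb' 0 hj) w hw with h | h
        · right
          refine ⟨1, ?_, h⟩
          rcases Nat.lt_or_ge 1 b with h1 | h1
          · exact h1
          · exfalso
            have : b = 1 := by omega
            apply hwA
            rw [hAB, this]; exact h
        · left; exact ⟨0, by omega, h⟩
      · rcases B.inner_nbrs hr h0 (hb' j hj) w hw with h | h
        · right; exact ⟨j - 1, by omega, h⟩
        · right
          refine ⟨j + 1, ?_, h⟩
          rcases Nat.lt_or_ge (j + 1) b with h1 | h1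
          · exact h1
          · exfalso
            have : b = j + 1 := by omega
            apply hwA
            rw [hAB, this]; exact h
  -- everything reachable is in C
  have hreach : ∀ (x y : ({A}ᶜ : Set V)), (G.induce ({A}ᶜ : Set V)).Reachable x y →
      x.1 ∈ C → y.1 ∈ C := by
    rintro x y ⟨p⟩ hx
    induction p with
    | nil => exact hx
    | @cons u v w hadj q ih =>
      apply ih
      exact hclosed _ hx _ (by simpa using hadj) v.2
  -- the last vertices before A
  let q' : V := if b = 0 then s0 else par^[b - 1] t0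
  obtain ⟨w, hw, hw1, hw2⟩ := ha (par^[a - 1] s0) q'
  have hs0C : s0 ∈ C := Or.inl ⟨0, by omega, rfl⟩
  have hs0A : s0 ∈ ({A}ᶜ : Set V) := by
    intro h
    have h' : s0 = A := h
    exact hCA (h' ▸ hs0C)
  have hwA : w ∈ ({A}ᶜ : Set V) := by
    intro h
    exact hw.ne h.symm
  have hwC : w ∈ C := hreach ⟨s0, hs0A⟩ ⟨w, hwA⟩ (hcut.preconnected _ _) hs0C
  rcases hwC with ⟨i, hi, rfl⟩ | ⟨j, hj, rfl⟩
  · rcases Nat.eq_zero_or_pos i with h0 | h0
    · subst h0
      simp only [Function.iterate_zero, id] at *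
      rcases hs0 A hw.symm with h | h
      · have h1 : ¬ 1 < a := fun h1 => ha' 1 h1 (by
          have : par^[1] s0 = A := h.symm
          rw [this]; exact ha)
        have : a = 1 := by omega
        subst this
        exact hw1 rfl
      · have h1 : ¬ 0 < b := fun h1 => hb' 0 h1 (by
          have : par^[0] t0 = A := h.symm
          rw [this]; exact ha)
        have : b = 0 := by omega
        subst this
        exact hw2 rfl
    · rcases B.inner_nbrs hr h0 (ha' i hi) A hw.symm with h | h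
      · exact ha' (i - 1) (by omega) (h ▸ ha)
      · have h1 : ¬ i + 1 < a := fun h1 => ha' (i + 1) h1 (h ▸ ha)
        have : a = i + 1 := by omega
        subst this
        exact hw1 rfl
  · rcases Nat.eq_zero_or_pos j with h0 | h0
    · subst h0
      simp only [Function.iterate_zero, id] at *
      rcases ht0 (hb' 0 hj) A hw.symm with h | h
      · have h1 : ¬ 1 < b := fun h1 => hb' 1 h1 (by
          have : par^[1] t0 = A := h.symm
          rw [this]; exact ha)
        have : b = 1 := by omega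
        subst this
        exact hw2 rfl
      · exact hCA (h ▸ hs0C)
    · rcases B.inner_nbrs hr h0 (hb' j hj) A hw.symm with h | h
      · exact hb' (j - 1) (by omega) (h ▸ ha)
      · have h1 : ¬ j + 1 < b := fun h1 => hb' (j + 1) h1 (h ▸ ha)
        have : b = j + 1 := by omega
        subst this
        exact hw2 rfl

/-- the witness -/
lemma witness [Fintype V] (hdeg : ∀ v x, ∃ y, G.Adj v y ∧ y ≠ x) (hr : Deg3 G r)
    (hm : Matching G par) {s0 t0 : V} (hco : Co G par s0 t0)
    (hmax : ∀ v, G.dist r v ≤ G.dist r s0)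
    {a b : ℕ} (ha : Deg3 G (par^[a] s0)) (ha' : ∀ i, i < a → ¬ Deg3 G (par^[i] s0))
    (hb' : ∀ i, i < b → ¬ Deg3 G (par^[i] t0))
    (ha1 : 1 ≤ a) (hne : par^[a] s0 ≠ par^[b] t0)
    (hle : G.dist r (par^[b] t0) ≤ G.dist r (par^[a] s0)) :
    ∃ z, Sp G par z ∧ z ≠ s0 ∧ z ≠ t0 ∧
      ((G.dist r (par^[b] t0) < G.dist r (par^[a] s0) ∧
        G.dist z (par^[a] s0) + (G.dist r s0 - G.dist r (par^[a] s0)) <
        G.dist z (par^[b] t0) + (G.dist r s0 - G.dist r (par^[b] t0))) ∨
      (G.dist r (par^[b] t0) = G.dist r (par^[a] s0) ∧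
        G.dist z (par^[a] s0) ≠ G.dist z (par^[b] t0))) := by
  classical
  obtain ⟨s1, hs1, hs1', hs1''⟩ := B.other hdeg hr ha ha' ha1
  set A := par^[a] s0 with hA
  set B' := par^[b] t0 with hB'
  rcases hle.lt_or_eq with hlt | heq
  · refine ⟨s1, hs1', hs1'', ?_, Or.inl ⟨hlt, ?_⟩⟩
    · rintro rfl
      obtain ⟨j, hj⟩ := hs1
      have l1 := B.lev_iter j s1
      have l2 := B.lev_iter b s1
      rw [hj] at l1
      rw [← hB'] at l2
      exact hb' j (by omega) (hj ▸ ha)
    · have e1 := B.anc_MA hs1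
      have e2 := B.MA_le (u := B') (s := s1)
      have e3 := hmax A
      rw [dist_comm (u := s1) (v := A), dist_comm (u := s1) (v := B')]
      unfold MA at e1
      omega
  · obtain ⟨s, hs, hmin⟩ := (Finset.univ.filter
      (fun s => Anc par A s ∧ Sp G par s ∧ s ≠ s0)).exists_min_image
      (fun s => G.dist r s) ⟨s1, by simp [hs1, hs1', hs1'']⟩
    simp only [Finset.mem_filter, Finset.mem_univ, true_and] at hs hmin
    have hmin' : ∀ s'', Anc par A s'' → Sp G par s'' → G.dist r s ≤ G.dist r s'' := by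
      intro s'' h1 h2
      by_cases h3 : s'' = s0
      · rw [h3]; exact hmax s
      · exact hmin s'' ⟨h1, h2, h3⟩
    have hAt : ¬ Anc par A t0 := by
      intro h
      exact hne (B.anc_unique h ⟨b, rfl⟩ heq.symm)
    rcases B.key (u := B') (v := A) hne.symm heq hs.1 hs.2.1 hmin' with h | ⟨y, h1, h2, h3, h4⟩
    · refine ⟨s, hs.2.1, hs.2.2, ?_, Or.inr ⟨heq, ?_⟩⟩
      · rintro rfl; exact hAt hs.1
      · exact B.c1_of_sd heq.symm (Or.inl ⟨B.anc_MA hs.1, h⟩)
    · refine ⟨y, ⟨s, h1.symm⟩, ?_, ?_, Or.inr ⟨heq, ?_⟩⟩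
      · rintro rfl
        have := hmax s
        omega
      · rintro rfl
        exact hs.2.2 (hm y s s0 h1.symm hco.symm)
      · exact B.c1_of_sd heq.symm (Or.inr ⟨h3, h4⟩)

end BT

end Pool.Agent.TH452.Mix
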