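import Pool.Agent.TH452.MixE

set_option autoImplicit false

/-!
# The main combinatorial theorem
-/

namespace Pool.Agent.TH452.Mix

open SimpleGraph

variable {V : Type*} {G : SimpleGraph V} {r : V} {par : V → V}

namespace BT

variable (B : BT G r par)

include B in
/-- first case with the witness on the right side -/
lemma case1' [Fintype V] (hdeg : ∀ v x, ∃ y, G.Adj v y ∧ y ≠ x) (hr : Deg3 G r)
    {s0 t0 : V} (hco : Co G par s0 t0) (hlev : G.dist r s0 = G.dist r t0)
    (hs0 : ∀ w, G.Adj s0 w → w = par s0 ∨ w = t0)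
    (ht0 : ∀ w, G.Adj t0 w → w = par t0 ∨ w = s0)
    {a b : ℕ} (hab : a ≤ b) (ha1 : 1 ≤ a) (ha : Deg3 G (par^[a] s0))
    (ha' : ∀ i, i < a → ¬ Deg3 G (par^[i] s0))
    (hb' : ∀ i, i < b → ¬ Deg3 G (par^[i] t0))
    {z : V} (hz : Sp G par z) (hz0 : z ≠ s0) (hzt : z ≠ t0)
    (hd : G.dist z (par^[a] s0) + a < G.dist z (par^[b] t0) + b) :
    Res G (B.S0 s0) := by
  have hx : ∀ i, 0 < i → i < a → ∀ w, G.Adj (par^[i] s0) w →
      w = par^[i - 1] s0 ∨ w = par^[i + 1] s0 := fun i h1 h2 => B.inner_nbrs hr h1 (ha' i h2)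
  have hy : ∀ i, 0 < i → i < b → ∀ w, G.Adj (par^[i] t0) w →
      w = par^[i - 1] t0 ∨ w = par^[i + 1] t0 := fun i h1 h2 => B.inner_nbrs hr h1 (hb' i h2)
  refine B.case1 hdeg hco hlev hs0 ht0 hab ha1 hx hy (B.other hdeg hr ha ha' ha1) hz hz0 ?_
  by_contra hcon
  push Not at hcon
  have hc := B.conn
  obtain ⟨w', hw', hd'⟩ := exists_closer hc hzt
  have c1 : G.dist z (par^[1] t0) + 1 = G.dist z t0 := by
    rcases ht0 w' hw' with h | h
    · subst h; exact hd'
    · subst h; omega
  have hin : ∀ k, 0 < k → k < b → z ≠ par^[k] t0 := by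
    rintro k hk1 hk2 rfl
    refine B.inner_not_sp (hy k hk1 hk2) ?_ ?_ hz
    · rw [← Function.iterate_succ_apply' par, Nat.succ_eq_add_one, Nat.sub_add_cancel hk1]
    · rw [← Function.iterate_succ_apply' par]
  have c2 := chain hc (z := z) (c := fun i => par^[i] t0) (m := b) c1 hy hin b le_rfl
  simp only [Function.iterate_zero, id] at c2
  have c3 := dist_iter_le hc B z s0 a
  omega

include B in
/-- both ends on the last level -/
lemma level_eq [Fintype V] (hdeg : ∀ v x, ∃ y, G.Adj v y ∧ y ≠ x) (hr : Deg3 G r)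
    (hm : Matching G par) (hcut : ∀ v : V, (G.induce {v}ᶜ).Connected)
    {s0 t0 : V} (hco : Co G par s0 t0) (hlev : G.dist r s0 = G.dist r t0)
    (hmax : ∀ v, G.dist r v ≤ G.dist r s0)
    (hs0 : ∀ w, G.Adj s0 w → w = par s0 ∨ w = t0)
    (ht0 : ∀ w, G.Adj t0 w → w = par t0 ∨ w = s0)
    (hd0 : ¬ Deg3 G s0) (hd1 : ¬ Deg3 G t0) :
    ∃ q, Sp G par q ∧ Res G (B.S0 q) := by
  classical
  have ex : ∀ v, ∃ i, Deg3 G (par^[i] v) := fun v => ⟨G.dist r v, by
    rw [B.iter_lev_root]; exact hr⟩
  have hroot : ∀ (v : V) (m : ℕ), (∀ i, i < m → ¬ Deg3 G (par^[i] v)) → m ≤ G.dist r v := by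
    intro v m h
    by_contra hcon
    push Not at hcon
    exact h _ hcon (by rw [B.iter_lev_root]; exact hr)
  -- asymmetric version
  have main : ∀ (s0 t0 : V) (a b : ℕ), Co G par s0 t0 → G.dist r s0 = G.dist r t0 →
      (∀ v, G.dist r v ≤ G.dist r s0) →
      (∀ w, G.Adj s0 w → w = par s0 ∨ w = t0) → (∀ w, G.Adj t0 w → w = par t0 ∨ w = s0) →
      ¬ Deg3 G s0 → ¬ Deg3 G t0 →
      Deg3 G (par^[a] s0) → (∀ i, i < a → ¬ Deg3 G (par^[i] s0)) →
      Deg3 G (par^[b] t0) → (∀ i, i < b → ¬ Deg3 G (par^[i] t0)) → a ≤ b →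
      ∃ q, Sp G par q ∧ Res G (B.S0 q) := by
    intro s0 t0 a b hco hlev hmax hs0 ht0 hd0 hd1 ha ha' hb hb' hab
    have ha1 : 1 ≤ a := by
      rcases Nat.eq_zero_or_pos a with h | h
      · subst h; exact absurd ha hd0
      · exact h
    have hb1 : 1 ≤ b := by omega
    have hne := B.ends_ne hr hs0 (fun _ => ht0) ha ha' hb' ha1 (hcut _)
    have la := B.lev_iter a s0
    have lb := B.lev_iter b t0
    have ra := hroot s0 a ha'
    have rb := hroot t0 b hb'
    obtain ⟨z, hz, hz0, hzt, hz'⟩ := B.witness hdeg hr hm hco hmax ha ha' hb' ha1 hne (by omega)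
    rcases hz' with ⟨h1, h2⟩ | ⟨h1, h2⟩
    · exact ⟨s0, ⟨t0, hco⟩, B.case1' hdeg hr hco hlev hs0 ht0 hab ha1 ha ha' hb' hz hz0 hzt
        (by omega)⟩
    · rcases lt_or_gt_of_ne h2 with h3 | h3
      · exact ⟨s0, ⟨t0, hco⟩, B.case1' hdeg hr hco hlev hs0 ht0 hab ha1 ha ha' hb' hz hz0 hzt
          (by omega)⟩
      · exact ⟨t0, ⟨s0, hco.symm⟩, B.case1' hdeg hr hco.symm hlev.symm ht0 hs0 (by omega) hb1
          hb hb' ha' hz hzt hz0 (by omega)⟩
  rcases le_total (Nat.find (ex s0)) (Nat.find (ex t0)) with h | h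
  · exact main s0 t0 _ _ hco hlev hmax hs0 ht0 hd0 hd1 (Nat.find_spec (ex s0))
      (fun i hi => Nat.find_min (ex s0) hi) (Nat.find_spec (ex t0))
      (fun i hi => Nat.find_min (ex t0) hi) h
  · exact main t0 s0 _ _ hco.symm hlev.symm (fun v => hlev ▸ hmax v) ht0 hs0 hd1 hd0
      (Nat.find_spec (ex t0))
      (fun i hi => Nat.find_min (ex t0) hi) (Nat.find_spec (ex s0))
      (fun i hi => Nat.find_min (ex s0) hi) h

include B in
/-- the other end one level above -/
lemma level_lt [Fintype V] (hdeg : ∀ v x, ∃ y, G.Adj v y ∧ y ≠ x) (hr : Deg3 G r)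
    (hm : Matching G par) (hcut : ∀ v : V, (G.induce {v}ᶜ).Connected)
    {s0 q : V} (hco : Co G par s0 q) (hlev : G.dist r s0 = G.dist r q + 1)
    (hmax : ∀ v, G.dist r v ≤ G.dist r s0)
    (hs0 : ∀ w, G.Adj s0 w → w = par s0 ∨ w = q)
    (hd0 : ¬ Deg3 G s0) {a b : ℕ} (ha : Deg3 G (par^[a] s0))
    (ha' : ∀ i, i < a → ¬ Deg3 G (par^[i] s0))
    (hb' : ∀ i, i < b → ¬ Deg3 G (par^[i] q)) (hab : a ≤ b + 1) :
    ∃ q, Sp G par q ∧ Res G (B.S0 q) := by
  classical
  have hc := B.conn
  have hroot : ∀ (v : V) (m : ℕ), (∀ i, i < m → ¬ Deg3 G (par^[i] v)) → m ≤ G.dist r v := by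
    intro v m h
    by_contra hcon
    push Not at hcon
    exact h _ hcon (by rw [B.iter_lev_root]; exact hr)
  have hqr : q ≠ r := by rintro rfl; exact B.not_co_root hco.symm
  have ha1 : 1 ≤ a := by
    rcases Nat.eq_zero_or_pos a with h | h
    · subst h; exact absurd ha hd0
    · exact h
  have hq : ¬ Deg3 G q → ∀ w, G.Adj q w → w = par q ∨ w = s0 := by
    intro h
    exact nbrs_of_not_deg3 h (B.par_adj q hqr) hco.1.symm hco.2.2
  have hne := B.ends_ne hr hs0 hq ha ha' hb' ha1 (hcut _)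
  have la := B.lev_iter a s0
  have lb := B.lev_iter b q
  have ra := hroot s0 a ha'
  have rb := hroot q b hb'
  obtain ⟨z, hz, hz0, hzt, hz'⟩ := B.witness hdeg hr hm hco hmax ha ha' hb' ha1 hne (by omega)
  have hx : ∀ i, 0 < i → i < a → ∀ w, G.Adj (par^[i] s0) w →
      w = par^[i - 1] s0 ∨ w = par^[i + 1] s0 := fun i h1 h2 => B.inner_nbrs hr h1 (ha' i h2)
  have hy : ∀ i, 0 < i → i < b + 1 → ∀ w, G.Adj (yseq par s0 q i) w →
      w = yseq par s0 q (i - 1) ∨ w = yseq par s0 q (i + 1) := by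
    intro i h1 h2 w hw
    obtain ⟨i, rfl⟩ : ∃ k', i = k' + 1 := ⟨i - 1, by omega⟩
    simp only [Nat.add_sub_cancel]
    rcases Nat.eq_zero_or_pos i with h0 | h0
    · subst h0
      rcases hq (hb' 0 (by omega)) w hw with h | h
      · right; exact h
      · left; exact h
    · rcases B.inner_nbrs hr h0 (hb' i (by omega)) w hw with h | h
      · left
        obtain ⟨i, rfl⟩ : ∃ k', i = k' + 1 := ⟨i - 1, by omega⟩
        exact h
      · right; exact h
  refine ⟨q, ⟨s0, hco.symm⟩, B.case2 hdeg hco hlev hmax hs0 (fun w hw => hm q w s0 hw hco.symm)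
    (b := b + 1) hab ha1 hx hy (B.other hdeg hr ha ha' ha1) hz hz0 hzt ?_⟩
  intro heq
  have c0 : G.dist z (par s0) + 1 = G.dist z s0 := by
    obtain ⟨w', hw', hd'⟩ := exists_closer hc hz0
    rcases hs0 w' hw' with h | h
    · subst h; exact hd'
    · subst h; omega
  have c1 : G.dist z (par^[1] s0) + 1 = G.dist z s0 := c0
  have hin : ∀ k, 0 < k → k < a → z ≠ par^[k] s0 := by
    rintro k hk1 hk2 rfl
    refine B.inner_not_sp (hx k hk1 hk2) ?_ ?_ hz
    · rw [← Function.iterate_succ_apply' par, Nat.succ_eq_add_one, Nat.sub_add_cancel hk1]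
    · rw [← Function.iterate_succ_apply' par]
  have c2 := chain hc (z := z) (c := fun i => par^[i] s0) (m := a) c1 hx hin a le_rfl
  simp only [Function.iterate_zero, id] at c2
  have d1 : G.dist z (yseq par s0 q 1) + 1 = G.dist z (yseq par s0 q 0) := by
    change G.dist z q + 1 = G.dist z s0
    omega
  have hin' : ∀ k, 0 < k → k < b + 1 → z ≠ yseq par s0 q k := by
    rintro k hk1 hk2 rfl
    obtain ⟨k, rfl⟩ : ∃ k', k = k' + 1 := ⟨k - 1, by omega⟩
    rcases Nat.eq_zero_or_pos k with h0 | h0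
    · subst h0; exact hzt rfl
    · obtain ⟨k, rfl⟩ : ∃ k', k = k' + 1 := ⟨k - 1, by omega⟩
      refine B.inner_not_sp (hy _ hk1 hk2) ?_ ?_ hz
      · change par (par^[k] q) = par^[k + 1] q
        rw [← Function.iterate_succ_apply' par]
      · change par (par^[k + 1] q) = par^[k + 1 + 1] q
        rw [← Function.iterate_succ_apply' par]
  have d2 := chain hc (z := z) (c := yseq par s0 q) (m := b + 1) d1 hy hin' (b + 1) le_rfl
  change G.dist z (par^[b] q) + (b + 1) = G.dist z s0 at d2
  rcases hz' with ⟨h1, h2⟩ | ⟨h1, h2⟩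
  · omega
  · omega

end BT

/-- existence of a breadth first search tree -/
lemma exists_BT (hc : G.Connected) (r : V) : ∃ par, BT G r par := by
  classical
  have h : ∀ v, ∃ w, v ≠ r → (G.Adj v w ∧ G.dist r w + 1 = G.dist r v) := by
    intro v
    by_cases h : v = r
    · exact ⟨v, fun h' => absurd h h'⟩
    · obtain ⟨w, hw⟩ := exists_closer hc (u := r) (v := v) (fun e => h e.symm)
      exact ⟨w, fun _ => hw⟩
  choose f hf using h
  refine ⟨fun v => if v = r then r else f v, hc, by simp, ?_, ?_⟩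
  · intro v hv; simp only [hv, if_false]; exact (hf v hv).1
  · intro v hv; simp only [hv, if_false]; exact (hf v hv).2

/-- The main combinatorial theorem. -/
theorem main_exists [Fintype V] (hc : G.Connected) (hdeg : ∀ v x, ∃ y, G.Adj v y ∧ y ≠ x)
    (hr : Deg3 G r) (hcut : ∀ v : V, (G.induce {v}ᶜ).Connected) :
    ∃ (par : V → V) (B : BT G r par), ¬ Matching G par ∨ ∃ q, Sp G par q ∧ Res G (B.S0 q) := by
  classical
  obtain ⟨par, B⟩ := exists_BT hc r
  by_cases hm : Matching G par
  swap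
  · exact ⟨par, B, Or.inl hm⟩
  obtain ⟨s0, -, hmax⟩ := Finset.exists_max_image Finset.univ (fun v => G.dist r v)
    ⟨r, Finset.mem_univ _⟩
  replace hmax : ∀ v, G.dist r v ≤ G.dist r s0 := fun v => hmax v (Finset.mem_univ v)
  have hs0r : s0 ≠ r := by
    rintro rfl
    obtain ⟨w, hw, -⟩ := hdeg s0 s0
    have h1 := hmax w
    rw [dist_self] at h1
    have h2 : G.dist s0 w = 1 := dist_eq_one_iff_adj.2 hw
    omega
  have hnochild : ∀ par' : V → V, BT G r par' → ∀ w, par' w ≠ s0 := by
    intro par' B' w hw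
    have hwr : w ≠ r := by
      rintro rfl
      rw [B'.par_r] at hw
      exact hs0r hw.symm
    have := B'.par_lev w hwr
    rw [hw] at this
    have := hmax w
    omega
  obtain ⟨t0, ht, htp⟩ := hdeg s0 (par s0)
  have hco : Co G par s0 t0 := ⟨ht, fun e => htp e.symm, hnochild par B t0⟩
  have hs0 : ∀ w, G.Adj s0 w → w = par s0 ∨ w = t0 := by
    intro w hw
    by_cases h : w = par s0
    · exact Or.inl h
    · exact Or.inr (hm s0 w t0 ⟨hw, fun e => h e.symm, hnochild par B w⟩ hco)
  have hd0 : ¬ Deg3 G s0 := by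
    intro h
    obtain ⟨w, hw, h1, h2⟩ := h (par s0) t0
    rcases hs0 w hw with h3 | h3
    · exact h1 h3
    · exact h2 h3
  have ht0r : t0 ≠ r := by rintro rfl; exact B.not_co_root hco.symm
  have hlt := dist_adj_le hc (u := r) ht.symm
  have hle := hmax t0
  by_cases hlev : G.dist r s0 = G.dist r t0
  · -- level_eq
    have hnochild' : ∀ w, par w ≠ t0 := by
      intro w hw
      have hwr : w ≠ r := by
        rintro rfl
        rw [B.par_r] at hw
        exact ht0r hw.symm
      have := B.par_lev w hwr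
      rw [hw] at this
      have := hmax w
      omega
    have ht0 : ∀ w, G.Adj t0 w → w = par t0 ∨ w = s0 := by
      intro w hw
      by_cases h : w = par t0
      · exact Or.inl h
      · exact Or.inr (hm t0 w s0 ⟨hw, fun e => h e.symm, hnochild' w⟩ hco.symm)
    have hd1 : ¬ Deg3 G t0 := by
      intro h
      obtain ⟨w, hw, h1, h2⟩ := h (par t0) s0
      rcases ht0 w hw with h3 | h3
      · exact h1 h3
      · exact h2 h3
    exact ⟨par, B, Or.inr (B.level_eq hdeg hr hm hcut hco hlev hmax hs0 ht0 hd0 hd1)⟩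
  · have hlev' : G.dist r s0 = G.dist r t0 + 1 := by omega
    have ex : ∀ v, ∃ i, Deg3 G (par^[i] v) := fun v => ⟨G.dist r v, by
      rw [B.iter_lev_root]; exact hr⟩
    by_cases hab : Nat.find (ex s0) ≤ Nat.find (ex t0) + 1
    · exact ⟨par, B, Or.inr (B.level_lt hdeg hr hm hcut hco hlev' hmax hs0 hd0
        (Nat.find_spec (ex s0)) (fun i hi => Nat.find_min (ex s0) hi)
        (fun i hi => Nat.find_min (ex t0) hi) hab)⟩
    · push Not at hab
      -- change the tree at `s0`
      let par' : V → V := Function.update par s0 t0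
      have hp0 : par' s0 = t0 := Function.update_self ..
      have hp : ∀ v, v ≠ s0 → par' v = par v := fun v hv => Function.update_of_ne hv ..
      have B' : BT G r par' := by
        refine ⟨hc, ?_, ?_, ?_⟩
        · rw [hp r (Ne.symm hs0r)]; exact B.par_r
        · intro v hv
          by_cases h : v = s0
          · subst h; rw [hp0]; exact ht
          · rw [hp v h]; exact B.par_adj v hv
        · intro v hv
          by_cases h : v = s0
          · subst h; rw [hp0]; omega
          · rw [hp v h]; exact B.par_lev v hv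
      have hit : ∀ (i : ℕ) (v : V), v ≠ s0 → par'^[i] v = par^[i] v ∧ par^[i] v ≠ s0 := by
        intro i
        induction i with
        | zero => intro v hv; exact ⟨rfl, hv⟩
        | succ i ih =>
          intro v hv
          rw [Function.iterate_succ_apply, Function.iterate_succ_apply, hp v hv]
          exact ih (par v) (hnochild par B v)
      by_cases hm' : Matching G par'
      swap
      · exact ⟨par', B', Or.inl hm'⟩
      have hps : par s0 ≠ s0 := (B.par_adj s0 hs0r).ne'
      have hco' : Co G par' s0 (par s0) := by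
        refine ⟨B.par_adj s0 hs0r, ?_, ?_⟩
        · rw [hp0]; exact htp
        · rw [hp _ hps]; exact hnochild par B _
      have hs0' : ∀ w, G.Adj s0 w → w = par' s0 ∨ w = par s0 := by
        intro w hw
        rw [hp0]
        exact (hs0 w hw).symm
      have hlevp : G.dist r s0 = G.dist r (par s0) + 1 := (B.par_lev s0 hs0r).symm
      refine ⟨par', B', Or.inr (B'.level_lt hdeg hr hm' hcut (q := par s0)
        (a := Nat.find (ex t0) + 1) (b := Nat.find (ex s0) - 1) hco' hlevp hmax hs0' hd0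
        ?_ ?_ ?_ ?_)⟩
      · rw [Function.iterate_succ_apply, hp0, (hit _ _ ht.ne').1]
        exact Nat.find_spec (ex t0)
      · intro i hi
        cases i with
        | zero => exact hd0
        | succ i =>
          rw [Function.iterate_succ_apply, hp0, (hit _ _ ht.ne').1]
          exact Nat.find_min (ex t0) (by omega)
      · intro i hi
        rw [(hit _ _ hps).1, ← Function.iterate_succ_apply]
        exact Nat.find_min (ex s0) (by omega)
      · omega

end Pool.Agent.TH452.Mix
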