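import Pool.Agent.TH452.MixF

set_option autoImplicit false

/-!
# Counting, and the theorem for finite graphs
-/

namespace Pool.Agent.TH452.Mix

open SimpleGraph

variable {V : Type*} {G : SimpleGraph V} {r : V} {par : V → V}

/-- the cotree graph -/
def coGraph (G : SimpleGraph V) (par : V → V) : SimpleGraph V where
  Adj u v := Co G par u v
  symm := ⟨fun _ _ h => h.symm⟩
  loopless := ⟨fun _ h => h.1.ne rfl⟩

section count

variable [Fintype V]

open Classical in
lemma count_edges (B : BT G r par) :
    Fintype.card V + (coGraph G par).edgeFinset.card ≤ G.edgeFinset.card + 1 := by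
  have h1 : ((Finset.univ.erase r).image (fun v => s(v, par v))).card = Fintype.card V - 1 := by
    rw [Finset.card_image_of_injOn, Finset.card_erase_of_mem (Finset.mem_univ _),
      Finset.card_univ]
    intro u hu v hv h
    simp only [Finset.coe_erase, Finset.coe_univ, Set.mem_sdiff, Set.mem_univ, true_and,
      Set.mem_singleton_iff] at hu hv
    simp only [Sym2.eq_iff] at h
    rcases h with h | ⟨h1, h2⟩
    · exact h.1
    · have l1 := B.par_lev u hu
      have l2 := B.par_lev v hv
      rw [h2] at l1
      rw [← h1] at l2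
      omega
  have h2 : Disjoint ((Finset.univ.erase r).image (fun v => s(v, par v)))
      (coGraph G par).edgeFinset := by
    rw [Finset.disjoint_left]
    intro e he he'
    simp only [Finset.mem_image, Finset.mem_erase, Finset.mem_univ, and_true] at he
    obtain ⟨v, hv, rfl⟩ := he
    rw [mem_edgeFinset, mem_edgeSet] at he'
    exact he'.2.1 rfl
  have h3 : ((Finset.univ.erase r).image (fun v => s(v, par v))) ∪ (coGraph G par).edgeFinset ⊆
      G.edgeFinset := by
    intro e he
    rw [Finset.mem_union] at he
    rcases he with he | he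
    · simp only [Finset.mem_image, Finset.mem_erase, Finset.mem_univ, and_true] at he
      obtain ⟨v, hv, rfl⟩ := he
      rw [mem_edgeFinset, mem_edgeSet]
      exact B.par_adj v hv
    · revert he
      refine Sym2.ind (fun a b he => ?_) e
      rw [mem_edgeFinset, mem_edgeSet] at he ⊢
      exact he.1
  have h4 := Finset.card_le_card h3
  rw [Finset.card_union_of_disjoint h2, h1] at h4
  have : 0 < Fintype.card V := Fintype.card_pos_iff.2 ⟨r⟩
  omega

open Classical in
/-- the ends of cotree edges -/
noncomputable def spF (G : SimpleGraph V) (par : V → V) : Finset V :=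
  Finset.univ.filter (fun v => Sp G par v)

open Classical in
lemma mem_spF {v : V} : v ∈ spF G par ↔ Sp G par v := by simp [spF]

open Classical in
lemma degree_pos {v : V} (h : Sp G par v) : 0 < (coGraph G par).degree v := by
  obtain ⟨w, hw⟩ := h
  rw [SimpleGraph.degree_pos_iff_exists_adj]
  exact ⟨w, hw⟩

open Classical in
lemma spF_card : (spF G par).card ≤ 2 * (coGraph G par).edgeFinset.card := by
  rw [← sum_degrees_eq_twice_card_edges, Finset.card_eq_sum_ones]
  calc ∑ v ∈ spF G par, 1 ≤ ∑ v ∈ spF G par, (coGraph G par).degree v :=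
        Finset.sum_le_sum (fun v hv => degree_pos (mem_spF.1 hv))
    _ ≤ _ := Finset.sum_le_sum_of_subset (Finset.subset_univ _)

open Classical in
lemma spF_card' (h : ¬ Matching G par) :
    (spF G par).card + 1 ≤ 2 * (coGraph G par).edgeFinset.card := by
  unfold Matching at h
  push Not at h
  obtain ⟨u, v, w, h1, h2, h3⟩ := h
  rw [← sum_degrees_eq_twice_card_edges, Finset.card_eq_sum_ones]
  have hu : u ∈ spF G par := mem_spF.2 ⟨v, h1⟩
  have hlt : ∑ v ∈ spF G par, 1 < ∑ v ∈ spF G par, (coGraph G par).degree v := by
    refine Finset.sum_lt_sum (fun v hv => degree_pos (mem_spF.1 hv)) ⟨u, hu, ?_⟩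
    rw [← SimpleGraph.card_neighborFinset_eq_degree, Finset.one_lt_card]
    exact ⟨v, (mem_neighborFinset _ _ _).2 h1, w, (mem_neighborFinset _ _ _).2 h2, h3⟩
  have hle : ∑ v ∈ spF G par, (coGraph G par).degree v ≤ ∑ v, (coGraph G par).degree v :=
    Finset.sum_le_sum_of_subset (Finset.subset_univ _)
  omega

end count

/-- the theorem for graphs with a vertex of degree three, minimum degree two and no cut vertex -/
theorem exists_finset [Fintype V] (hc : G.Connected) (hdeg : ∀ v x, ∃ y, G.Adj v y ∧ y ≠ x)
    (hr : Deg3 G r) (hcut : ∀ v : V, (G.induce {v}ᶜ).Connected) :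
    ∃ S : Finset V, Res G (S : Set V) ∧
      S.card + 2 * Nat.card V ≤ 2 * Nat.card G.edgeSet + 2 := by
  classical
  have hE : Nat.card G.edgeSet = G.edgeFinset.card := by
    rw [Nat.card_eq_fintype_card, edgeFinset_card]
  rw [hE, Nat.card_eq_fintype_card]
  obtain ⟨par, B, h | ⟨q, hq, hres⟩⟩ := main_exists hc hdeg hr hcut
  · refine ⟨insert r (spF G par), ?_, ?_⟩
    · apply B.base hdeg
      · simp
      · intro s hs
        simp [mem_spF, hs]
    · have h1 := count_edges B
      have h2 := spF_card' h
      have h3 := Finset.card_insert_le r (spF G par)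
      omega
  · refine ⟨insert r ((spF G par).erase q), ?_, ?_⟩
    · have : ((insert r ((spF G par).erase q) : Finset V) : Set V) = B.S0 q := by
        ext s
        simp only [Finset.coe_insert, Finset.coe_erase, Set.mem_insert_iff, Set.mem_sdiff,
          Finset.mem_coe, mem_spF, Set.mem_singleton_iff, BT.S0, Set.mem_ofPred_eq]
      rw [this]
      exact hres
    · have h1 := count_edges B
      have h2 := spF_card (G := G) (par := par)
      have h3 := Finset.card_insert_le r ((spF G par).erase q)
      have h4 := Finset.card_erase_add_one (mem_spF.2 hq)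
      omega

/-- minimum degree two in a graph without cut vertices -/
lemma deg_two [Fintype V] (h3 : 3 ≤ Fintype.card V) (hc : G.Connected)
    (hcut : ∀ v : V, (G.induce {v}ᶜ).Connected) : ∀ v x, ∃ y, G.Adj v y ∧ y ≠ x := by
  classical
  intro v x
  by_cases hvx : v = x
  · subst hvx
    obtain ⟨u, hu⟩ : ∃ u, u ≠ v := by
      by_contra hcon
      push Not at hcon
      have : Fintype.card V ≤ 1 := Fintype.card_le_one_iff.2 (fun a b => by rw [hcon a, hcon b])
      omega
    obtain ⟨w, hw, -⟩ := exists_closer hc hu
    exact ⟨w, hw, hw.ne'⟩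
  · obtain ⟨u, hu1, hu2⟩ : ∃ u, u ≠ v ∧ u ≠ x := by
      by_contra hcon
      push Not at hcon
      have h : (Finset.univ : Finset V) ⊆ {v, x} := by
        intro a _
        by_cases h : a = v
        · simp [h]
        · simp [hcon a h]
      have := (Finset.card_le_card h).trans (Finset.card_le_two)
      rw [Finset.card_univ] at this
      omega
    obtain ⟨w, hw, -⟩ := exists_closer (hcut x) (u := ⟨u, hu2⟩) (v := ⟨v, hvx⟩)
      (fun e => hu1 (congrArg Subtype.val e))
    exact ⟨w.1, hw, w.2⟩

/-- a graph with all degrees two is a cycle -/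
lemma cycle_of_not_deg3 [Fintype V] (hc : G.Connected)
    (hdeg : ∀ v x, ∃ y, G.Adj v y ∧ y ≠ x) (h : ∀ v, ¬ Deg3 G v) :
    ∃ (v : V) (p : G.Walk v v), p.IsCycle ∧ p.toSubgraph = ⊤ := by
  classical
  have hcyc : G.IsCycles := by
    intro v _
    obtain ⟨c, hc1, -⟩ := hdeg v v
    obtain ⟨d, hd1, hd2⟩ := hdeg v c
    have hn := nbrs_of_not_deg3 (h v) hc1 hd1 hd2.symm
    have : G.neighborSet v = {c, d} := by
      ext w
      simp only [mem_neighborSet, Set.mem_insert_iff, Set.mem_singleton_iff]
      constructor
      · exact hn w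
      · rintro (rfl | rfl)
        · exact hc1
        · exact hd1
    rw [this, Set.ncard_pair hd2.symm]
  obtain ⟨v⟩ := hc.nonempty
  obtain ⟨w, hw, -⟩ := hdeg v v
  obtain ⟨p, hp, hp'⟩ := hcyc.exists_cycle_toSubgraph_verts_eq_connectedComponentSupp
    (c := G.connectedComponentMk v) (v := v) rfl ⟨w, hw⟩
  have hverts : p.toSubgraph.verts = Set.univ := by
    rw [hp']
    ext x
    simp only [ConnectedComponent.mem_supp_iff, Set.mem_univ, iff_true]
    exact ConnectedComponent.eq.2 (hc.preconnected x v)
  refine ⟨v, p, hp, ?_⟩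
  apply Subgraph.ext
  · rw [hverts]; rfl
  · funext a b
    have := hp.adj_toSubgraph_iff_of_isCycles hcyc (v := a) (by rw [hverts]; trivial) b
    rw [eq_iff_iff, this]
    rfl

end Pool.Agent.TH452.Mix
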